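import Pool.Agent.H517.FF.All
import Pool.Graph.R_pool_sql_team_seeded_3dad9d7b.NH7.GF.UlimP
import Pool.Graph.R_pool_sql_team_seeded_3dad9d7b.NH7.GF.LftP
import Pool.Graph.R_pool_sql_team_seeded_3dad9d7b.NH7.GF.CptP
import Pool.Graph.R_pool_sql_team_seeded_3dad9d7b.NH7.GF.LclP
import Pool.Graph.R_pool_sql_team_seeded_3dad9d7b.NH7.GF.AvgP
import Pool.Graph.R_pool_sql_team_seeded_3dad9d7b.NH7.GF.UpP
import Pool.Graph.R_pool_sql_team_seeded_3dad9d7b.NH7.GF.DnP
import Pool.Graph.R_pool_sql_team_seeded_3dad9d7b.NH7.GF.RkP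
import Pool.Graph.R_pool_sql_team_seeded_3dad9d7b.NH7.GH.UpW

/-!
# The Birch and Swinnerton-Dyer conjecture in most cyclic extensions of a global function field

Let `K` be a global function field with field of constants containing the finite field `k` with `q` elements, and `p` an odd
prime number such that `K` contains a primitive `p`-th root of unity (so `p` is not the characteristic). Let `S` be a finite
set of places of `K`. We consider the cyclic extensions `L = K(d^(1/p))` of degree `p` with prescribed completions at the places in a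
finite set `T ⊇ S` (those of `K(d₀^(1/p))`, where `d₀` is not a local `p`-th power at the places in `S`), which outside `T` are
ramified exactly at `n` places `q_0, …, q_(n-1)`, where `d` has the prescribed orders `z_0, …, z_(n-1)` modulo `p`. The only
condition on `T` is that it contains a certain finite set `T₀`. For every tuple `(q_0, …, q_(n-1))` there is at most one such `L`, and the
set of the tuples for which there is one (the ensemble) has a positive density `δ` which does not depend on `n` and on the `z_i`; the density is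
the iterated Dirichlet density on the set of `n`-tuples of places.

Theorem. Let `ε > 0` and let `n` be large in terms of `ε`.

(1) For a share of at least `1 - 1 / (p - 1) - ε` of the fields `L` the following is true at the same time
* for **all** `N` and **all** continuous representations `ρ : G_K → GL_N(ℤ_p)` which are congruent to `1` modulo `p` and
  unramified outside `S`: the Selmer group of `V = ℚ_p ^ N` over `L` (classes which are zero at the places above `S` and
  unramified elsewhere) is the image of the Selmer group over `K`;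
* for **all** Galois modules `M` which have the properties of the group `A(K^sep)` of the points of an abelian variety `A / K` with
  good reduction outside `S` all of whose points of order `p` are rational: the group of the points over `L` has the same rank
  as the group of the points over `K`, and the restriction is an isomorphism of the rational `p`-adic Tate modules of the
  Tate-Shafarevich groups; in particular the Tate module over `L` is zero if and only if that over `K` is zero.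

The `p`-primary part of the Tate-Shafarevich group `Ш(A/L)` is of cofinite type, so its Tate module is zero if and only if it is finite;
this is equivalent to the Birch and Swinnerton-Dyer conjecture for `A/L` (Artin-Tate, Milne, Schneider, Kato-Trihan). So for a share of at least
`1 - 1 / (p - 1) - ε` of the fields `L` the conjecture over `L` is equivalent to the conjecture over `K`, for all these `A`
(for elliptic curves the conjecture over `K` is known if, for example, `A` is isotrivial, or has a model which is a rational or a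
`K3` surface).

(2) For `t ≥ 0` the share of the fields `L` such that for SOME such representation `V = ℚ_p ^ N` the dimension of the Selmer group over
`L` is larger than the dimension over `K` plus `(p - 1) N t` is at most `1 / (p ^ (t + 1) - 1) + ε`.
-/

set_option autoImplicit false

namespace Pool.Agent.Results.MP_48b749_nt.MostCyclicExtensions

open Filter Topology ENNReal

/-! ### Galois groups, decomposition groups and inertia groups

The places of `K` are `FF.Place k K`: the normalised discrete valuations `v.ord` of `K` which are trivial on `k`; `v.O` is the valuation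
ring. -/

section basic

variable {k K Ω : Type} [Field k] [Field K] [Algebra k K] [Field Ω] [Algebra K Ω]

variable (K Ω) in
/-- The Galois group of the extension `Ω / K`. In the theorem `Ω` is a separable closure of `K`, so this
is the absolute Galois group of `K`. -/
abbrev Gal : Type := Ω ≃ₐ[K] Ω

/-- The absolute Galois group of the field `L` between `K` and `Ω`. -/
abbrev GalL (L : IntermediateField K Ω) : Type := L.fixingSubgroup

/-- The valuation ring `A` of `Ω` lies above the place `v` of `K`. -/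
def Above (A : ValuationSubring Ω) (v : FF.Place k K) : Prop := A.comap (algebraMap K Ω) = v.O

variable (K) in
/-- The decomposition group of the valuation ring `A`: the `σ` such that `σ A = A`. -/
def Dec (A : ValuationSubring Ω) : Set (Gal K Ω) := {σ | ∀ x, σ x ∈ A ↔ x ∈ A}

variable (K) in
/-- The inertia group of `A`: the `σ` in the decomposition group such that `σ x` is congruent to `x`
modulo the maximal ideal of `A` for all `x` in `A`. -/
def Inr (A : ValuationSubring Ω) : Set (Gal K Ω) :=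
  {σ | (∀ x, σ x ∈ A ↔ x ∈ A) ∧ ∀ x ∈ A, A.valuation (σ x - x) < 1}

end basic

/-! ### The representations and their Selmer groups -/

section rep

variable {k K Ω : Type} [Field k] [Field K] [Algebra k K] [Field Ω] [Algebra K Ω] {p : ℕ} [Fact p.Prime] {N : ℕ}

/-- `ρ` is a continuous representation of the absolute Galois group of `K` on `ℤ_p ^ N`, trivial modulo
`p` and unramified outside `S`. -/
structure IsRep (S : Set (FF.Place k K)) (ρ : Gal K Ω →* Matrix (Fin N) (Fin N) ℤ_[p]) : Prop where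
  cont : Continuous ρ
  congr : ∀ σ i j, (p : ℤ_[p]) ∣ (ρ σ - 1) i j
  unramified : ∀ v ∉ S, ∀ A : ValuationSubring Ω, Above A v → ∀ σ ∈ Inr K A, ρ σ = 1

/-- The action on `V = ℚ_p ^ N`. -/
noncomputable def act (ρ : Gal K Ω →* Matrix (Fin N) (Fin N) ℤ_[p]) (σ : Gal K Ω)
    (x : Fin N → ℚ_[p]) : Fin N → ℚ_[p] :=
  ((ρ σ).map (algebraMap ℤ_[p] ℚ_[p])).mulVec x

variable {L : IntermediateField K Ω}

/-- The continuous cocycles of the absolute Galois group of `L` with values in `V`. -/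
structure IsCocycle (ρ : Gal K Ω →* Matrix (Fin N) (Fin N) ℤ_[p]) (c : GalL L → Fin N → ℚ_[p]) :
    Prop where
  cont : Continuous c
  mul : ∀ σ τ, c (σ * τ) = c σ + act ρ σ (c τ)

/-- The restriction of `c` to the subset `D` is a coboundary with values in `V`. -/
def TrivialOn (ρ : Gal K Ω →* Matrix (Fin N) (Fin N) ℤ_[p]) (D : Set (Gal K Ω))
    (c : GalL L → Fin N → ℚ_[p]) : Prop :=
  ∃ x : Fin N → ℚ_[p], ∀ σ : GalL L, (σ : Gal K Ω) ∈ D → c σ = act ρ σ x - x

/-- The local conditions: the class is zero at the places above `S` and unramified at the others. -/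
structure InSelmer (S : Set (FF.Place k K)) (ρ : Gal K Ω →* Matrix (Fin N) (Fin N) ℤ_[p])
    (c : GalL L → Fin N → ℚ_[p]) : Prop where
  strict : ∀ v ∈ S, ∀ A : ValuationSubring Ω, Above A v → TrivialOn ρ (Dec K A) c
  outside : ∀ v ∉ S, ∀ A : ValuationSubring Ω, Above A v → TrivialOn ρ (Inr K A) c

/-- The Selmer group of `V` over `L` is the image of the Selmer group of `V` over `K`: every cocycle
`c` in the first one differs by a coboundary from the restriction of a cocycle `c'` in the second one. -/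
def SelmerComesFromBase (S : Set (FF.Place k K)) (ρ : Gal K Ω →* Matrix (Fin N) (Fin N) ℤ_[p])
    (L : IntermediateField K Ω) : Prop :=
  ∀ c : GalL L → Fin N → ℚ_[p], IsCocycle ρ c → InSelmer S ρ c →
    ∃ c' : GalL (⊥ : IntermediateField K Ω) → Fin N → ℚ_[p], IsCocycle ρ c' ∧
      InSelmer S ρ c' ∧ ∃ x : Fin N → ℚ_[p],
        ∀ (σ : GalL L) (τ : GalL (⊥ : IntermediateField K Ω)),
          (τ : Gal K Ω) = (σ : Gal K Ω) → c σ = c' τ + (act ρ σ x - x)

/-- The dimension of the Selmer group of `V` over `L` is at least `n`. -/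
def SelmerDimAtLeast (S : Set (FF.Place k K)) (ρ : Gal K Ω →* Matrix (Fin N) (Fin N) ℤ_[p])
    (L : IntermediateField K Ω) (n : ℕ) : Prop :=
  ∃ c : Fin n → GalL L → Fin N → ℚ_[p], (∀ i, IsCocycle ρ (c i) ∧ InSelmer S ρ (c i)) ∧
    ∀ a : Fin n → ℚ_[p], TrivialOn ρ Set.univ (fun σ => ∑ i, a i • c i σ) → a = 0

end rep

/-! ### The Galois modules, their points and their Tate-Shafarevich groups -/

section mod

variable {k K Ω : Type} [Field k] [Field K] [Algebra k K] [Field Ω] [Algebra K Ω]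

/-- The elements of `M` which are fixed by the subset `U` of the Galois group. -/
def Fixed (M : Type) [AddCommGroup M] [DistribMulAction (Gal K Ω) M] (U : Set (Gal K Ω)) :
    AddSubgroup M where
  carrier := {P | ∀ σ ∈ U, σ • P = P}
  add_mem' := fun {a b} ha hb g hg => by rw [smul_add, ha g hg, hb g hg]
  zero_mem' := fun g _ => smul_zero g
  neg_mem' := fun {a} ha g hg => by rw [smul_neg, ha g hg]

/-- The torsion of `p`-power order of `M` is `ℚ_p ^ N / ℤ_p ^ N` (by means of `φ`), with a continuous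
representation `ρ` of the Galois group on `ℤ_p ^ N`, trivial modulo `p` and unramified outside `S`. -/
structure HasTateModule (M : Type) [AddCommGroup M] [DistribMulAction (Gal K Ω) M]
    (S : Set (FF.Place k K)) {p : ℕ} [Fact p.Prime] {N : ℕ}
    (ρ : Gal K Ω →* Matrix (Fin N) (Fin N) ℤ_[p]) (φ : (Fin N → ℚ_[p]) →+ M) : Prop where
  isRep : IsRep S ρ
  kernel : ∀ x, φ x = 0 ↔ ∀ j, ‖x j‖ ≤ 1
  image : ∀ (P : M) (n : ℕ), p ^ n • P = 0 → ∃ x, φ x = P
  equivariant : ∀ σ x, φ (act ρ σ x) = σ • φ x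

/-- The module `M` has the following properties of the group `A(K^sep)` of the points of an abelian
variety `A` over the global function field `K` with good reduction outside `S` all of whose points of
order `p` are rational:
* every point is defined over a finite extension of `K`;
* `M` is divisible by `p`;
* the torsion of `p`-power order comes from the Tate module, see `HasTateModule`;
* the group of the points over the henselization of a finite extension of `K` at one of its places is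
  divisible by `p` up to torsion;
* the group of the points over a finite extension of `K` is finitely generated (Mordell-Weil). -/
structure LikePoints (Ω : Type) [Field Ω] [Algebra K Ω] (M : Type) [AddCommGroup M] [DistribMulAction (Gal K Ω) M]
    (S : Set (FF.Place k K)) (p : ℕ) [Fact p.Prime] : Prop where
  open_stabilizer : ∀ P : M, IsOpen {σ : Gal K Ω | σ • P = P}
  divisible : ∀ P : M, ∃ Q : M, p • Q = P
  torsion : ∃ (N : ℕ) (ρ : Gal K Ω →* Matrix (Fin N) (Fin N) ℤ_[p]) (φ : (Fin N → ℚ_[p]) →+ M),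
    HasTateModule M S ρ φ
  local_points : ∀ A : ValuationSubring Ω, A ≠ ⊤ → ∀ U : Subgroup (Gal K Ω),
    IsOpen (U : Set (Gal K Ω)) → ∀ P ∈ Fixed M (Dec K A ∩ U), ∀ n : ℕ,
      ∃ Q ∈ Fixed M (Dec K A ∩ U), ∃ m : ℕ, p ^ m • (P - p ^ n • Q) = 0
  mordell_weil : ∀ U : Subgroup (Gal K Ω), IsOpen (U : Set (Gal K Ω)) →
    (Fixed M (U : Set (Gal K Ω))).FG

variable {M : Type} [AddCommGroup M] [DistribMulAction (Gal K Ω) M] {L : IntermediateField K Ω}

/-- The continuous cocycles of the absolute Galois group of `L` with values in the discrete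
module `M`. -/
structure IsDiscreteCocycle (f : GalL L → M) : Prop where
  cont : IsLocallyConstant f
  mul : ∀ σ τ : GalL L, f (σ * τ) = f σ + (σ : Gal K Ω) • f τ

/-- The restriction of `f` to the subset `D` is a coboundary with values in `M`. -/
def CoboundaryOn (D : Set (Gal K Ω)) (f : GalL L → M) : Prop :=
  ∃ P : M, ∀ σ : GalL L, (σ : Gal K Ω) ∈ D → f σ = (σ : Gal K Ω) • P - P

/-- The class of `f` is in the Tate-Shafarevich group of `M` over `L`: its restrictions to all
decomposition groups are zero. -/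
structure InSha (f : GalL L → M) : Prop where
  cocycle : IsDiscreteCocycle f
  locally_trivial : ∀ A : ValuationSubring Ω, A ≠ ⊤ → CoboundaryOn (Dec K A) f

/-- The sequence `f` is an element of the `p`-adic Tate module of the Tate-Shafarevich group of `M` over
`L`: the classes `c_n` of the `f n` are in the Tate-Shafarevich group, `c_0 = 0` and `p c_(n+1) = c_n`. -/
structure InTateSha (p : ℕ) (f : ℕ → GalL L → M) : Prop where
  mem : ∀ n, InSha (f n)
  zero : CoboundaryOn Set.univ (f 0)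
  step : ∀ n, CoboundaryOn Set.univ fun σ => p • f (n + 1) σ - f n σ

variable (M)

/-- The `p`-adic Tate module of the Tate-Shafarevich group of `M` over `L` is zero: for its elements
`f` all the `f n` are coboundaries. -/
def TateShaZero (p : ℕ) (L : IntermediateField K Ω) : Prop :=
  ∀ f : ℕ → GalL L → M, InTateSha p f → ∀ n, CoboundaryOn Set.univ (f n)

/-- The restriction from `K` to `L` is an isomorphism `V_p Sha(M / K) → V_p Sha(M / L)` of the rational
`p`-adic Tate modules of the Tate-Shafarevich groups: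
* an element `f'` of the Tate module over `K` is zero if the restrictions of all the `f' n` to the
  absolute Galois group of `L` are coboundaries;
* for every element `f` of the Tate module over `L` there are a power `p ^ a` and an element `f'` of the
  Tate module over `K` such that `p ^ a f` is the restriction of `f'`. -/
structure SameTateSha (p : ℕ) (L : IntermediateField K Ω) : Prop where
  injective : ∀ f' : ℕ → GalL (⊥ : IntermediateField K Ω) → M, InTateSha p f' →
    (∀ n, ∃ P : M, ∀ (σ : GalL L) (τ : GalL (⊥ : IntermediateField K Ω)),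
      (τ : Gal K Ω) = (σ : Gal K Ω) → f' n τ = (σ : Gal K Ω) • P - P) →
        ∀ n, CoboundaryOn Set.univ (f' n)
  surjective : ∀ f : ℕ → GalL L → M, InTateSha p f →
    ∃ (a : ℕ) (f' : ℕ → GalL (⊥ : IntermediateField K Ω) → M), InTateSha p f' ∧
      ∀ n, ∃ P : M, ∀ (σ : GalL L) (τ : GalL (⊥ : IntermediateField K Ω)),
        (τ : Gal K Ω) = (σ : Gal K Ω) → p ^ a • f n σ = f' n τ + ((σ : Gal K Ω) • P - P)

/-- The groups of the points of `M` over `L` and over `K` have the same rank: a nonzero multiple of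
every point over `L` is a point over `K`. -/
def SameRank (L : IntermediateField K Ω) : Prop :=
  ∀ P ∈ Fixed M (L.fixingSubgroup : Set (Gal K Ω)), ∃ n : ℕ, n ≠ 0 ∧
    n • P ∈ Fixed M (Set.univ : Set (Gal K Ω))

end mod

/-! ### The properties of the extensions -/

section ext

variable {k K Ω : Type} [Field k] [Field K] [Algebra k K] [Field Ω] [Algebra K Ω]

/-- No Selmer group grows in `L`: for all representations of `G_K`, congruent to `1` modulo `p` and
unramified outside `S`, the Selmer group over `L` is the image of the Selmer group over `K`. -/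
def SelmerStable (p : ℕ) [Fact p.Prime] (S : Set (FF.Place k K)) (L : IntermediateField K Ω) : Prop :=
  ∀ (N : ℕ) (ρ : Gal K Ω →* Matrix (Fin N) (Fin N) ℤ_[p]), IsRep S ρ → SelmerComesFromBase S ρ L

/-- No rank and no Tate-Shafarevich group grows in `L`: for all modules `M` with the properties of the
group of the points of an abelian variety over `K` with good reduction outside `S` and with rational
points of order `p`, the groups of the points over `L` and over `K` have the same rank, and the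
restriction is an isomorphism of the rational `p`-adic Tate modules of the Tate-Shafarevich groups; in
particular the Tate module over `L` is zero if and only if that over `K` is zero. -/
def PointsStable (p : ℕ) [Fact p.Prime] (S : Set (FF.Place k K)) (L : IntermediateField K Ω) : Prop :=
  ∀ (M : Type) [AddCommGroup M] [DistribMulAction (Gal K Ω) M], LikePoints Ω M S p →
    SameRank M L ∧ SameTateSha M p L ∧ (TateShaZero M p L ↔ TateShaZero M p (⊥ : IntermediateField K Ω))

end ext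

/-! ### The ensemble of cyclic extensions -/

section Ensemble

variable {k K : Type} [Field k] [Field K] [Algebra k K]

/-- `a` is nonzero and a `p`-th power in the henselization of `K` at `v` (equivalently, in the completion): the `p`-th roots of
`a` are fixed by the decomposition groups above `v`. (`K` contains a primitive `p`-th root of unity.) -/
def PowerAt (p : ℕ) (v : FF.Place k K) (a : K) : Prop :=
  a ≠ 0 ∧ ∀ A : ValuationSubring (SeparableClosure K), Above A v → ∀ x : SeparableClosure K,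
    x ^ p = algebraMap K (SeparableClosure K) a → ∀ σ ∈ Dec K A, σ x = x

open Classical in
/-- Among the places outside `T` the order of `d` modulo `p` is `z i` at the place `q i` and `0` at the
others; and at the places in `T` the element `d` is equal to `d₀` up to local `p`-th powers. So for nonzero `z i` and different
`q i` outside `T` the extension `K(d^(1/p))` is ramified, among the places outside `T`, exactly at the `q i`, and its completions at the
places in `T` are those of `K(d₀^(1/p))`. -/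
structure Fits (p : ℕ) (T : Finset (FF.Place k K)) (d₀ : K) {n : ℕ} (z : Fin n → ZMod p)
    (q : Fin n → FF.Place k K) (d : K) : Prop where
  ne : d ≠ 0
  ram : ∀ v ∉ T, ((v.ord d : ℤ) : ZMod p) = ∑ i, if q i = v then z i else 0
  loc : ∀ v ∈ T, PowerAt p v (d / d₀)

/-- The ensemble: the tuples of `n` different places outside `T` to which a `d` belongs. -/
def Ensemble (p : ℕ) (T : Finset (FF.Place k K)) (d₀ : K) {n : ℕ} (z : Fin n → ZMod p) :
    Set (Fin n → FF.Place k K) :=
  {q | (Function.Injective q ∧ ∀ i, q i ∉ T) ∧ ∃ d, Fits p T d₀ z q d}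

/-- `L = K(d^(1/p))`. -/
def IsKummer (p : ℕ) (d : K) (L : IntermediateField K (SeparableClosure K)) : Prop :=
  ∃ x : SeparableClosure K, x ^ p = algebraMap K (SeparableClosure K) d ∧ L = IntermediateField.adjoin K {x}

/-- `L` is the cyclic extension of `K` which belongs to the element `q` of the ensemble. -/
def Belongs (p : ℕ) (T : Finset (FF.Place k K)) (d₀ : K) {n : ℕ} (z : Fin n → ZMod p) (q : Fin n → FF.Place k K)
    (L : IntermediateField K (SeparableClosure K)) : Prop :=
  ∃ d : K, Fits p T d₀ z q d ∧ IsKummer p d L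

end Ensemble

/-! ### Densities -/

section density

variable {k K : Type} [Field k] [Field K] [Algebra k K]

/-- The embedding of `k` in the residue field of `v`. -/
noncomputable def resHom (v : FF.Place k K) : k →+* IsLocalRing.ResidueField v.O :=
  (IsLocalRing.residue v.O).comp ((algebraMap k K).codRestrict v.O.toSubring fun a => v.reg_const a)

/-- The degree of the place `v`: the degree over `k` of the residue field. -/
noncomputable def deg (v : FF.Place k K) : ℕ :=
  letI : Algebra k (IsLocalRing.ResidueField v.O) := (resHom v).toAlgebra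
  Module.finrank k (IsLocalRing.ResidueField v.O)

variable (k K)

/-- The upper mean value of the function `f` on the set of places of `K`: the upper limit of
`(1 - q u) ∑_v deg v u ^ (deg v) f(v)` for `u → 1 / q` from below, `q` the number of elements of `k`. (With `u = q ^ (-s)` this is
`(1 - q ^ (1 - s)) ∑_v deg v N(v) ^ (-s) f(v)` for `s → 1` from above.) -/
noncomputable def upperMean (f : FF.Place k K → ℝ≥0∞) : ℝ≥0∞ :=
  limsup (fun u : ℝ => ∑' v : FF.Place k K, ENNReal.ofReal ((1 - Nat.card k * u) * (deg v * u ^ deg v)) * f v)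
    (𝓝[<] (1 / (Nat.card k : ℝ)))

/-- The lower mean value. -/
noncomputable def lowerMean (f : FF.Place k K → ℝ≥0∞) : ℝ≥0∞ :=
  liminf (fun u : ℝ => ∑' v : FF.Place k K, ENNReal.ofReal ((1 - Nat.card k * u) * (deg v * u ^ deg v)) * f v)
    (𝓝[<] (1 / (Nat.card k : ℝ)))

/-- The iterated mean value of a function of `n` variables: first the mean value over the last variable is taken, for
fixed values of the other variables, then the mean value over the variable before the last, and so on. -/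
noncomputable def iterated {P : Type} (m : (P → ℝ≥0∞) → ℝ≥0∞) : (n : ℕ) → ((Fin n → P) → ℝ≥0∞) → ℝ≥0∞
  | 0, f => f Fin.elim0
  | n + 1, f => iterated m n fun q => m fun v => f (Fin.snoc (α := fun _ => P) q v)

open Classical in
/-- The upper density of the set `A` of `n`-tuples of places. -/
noncomputable def upperDensity {n : ℕ} (A : Set (Fin n → FF.Place k K)) : ℝ≥0∞ :=
  iterated (upperMean k K) n fun q => if q ∈ A then 1 else 0

open Classical in
/-- The lower density of the set `A` of `n`-tuples of places. -/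
noncomputable def lowerDensity {n : ℕ} (A : Set (Fin n → FF.Place k K)) : ℝ≥0∞ :=
  iterated (lowerMean k K) n fun q => if q ∈ A then 1 else 0

end density

/-! ### Proof of the theorem -/

section proof

open Pool.Agent.NH7.GF Pool.Agent.H517.FF
open Pool.Agent.NH7.GU (Chr)

variable {k K : Type} [Field k] [Finite k] [Field K] [Algebra k K] [FF.IsFF k K] {p : ℕ} [hp : Fact p.Prime] {N : ℕ}

/-- a set of places as a set of valuation rings -/
def toV (S : Set (FF.Place k K)) : Set (ValuationSubring K) := (fun v => v.O) '' S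

theorem above_ne {A : ValuationSubring (SeparableClosure K)} {v : FF.Place k K} (h : Above A v) : A ≠ ⊤ := by
  rintro rfl
  apply O_ne_top v
  rw [← (h : (⊤ : ValuationSubring (SeparableClosure K)).comap (algebraMap K (SeparableClosure K)) = v.O)]
  ext x
  exact ⟨fun _ => trivial, fun _ => trivial⟩

theorem mem_toV {S : Set (FF.Place k K)} {A : ValuationSubring (SeparableClosure K)} {v : FF.Place k K}
    (h : Above A v) : A.comap (algebraMap K (SeparableClosure K)) ∈ toV S ↔ v ∈ S := by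
  rw [(h : A.comap (algebraMap K (SeparableClosure K)) = v.O)]
  constructor
  · rintro ⟨w, hw, e⟩
    have e' : w = v := O_inj e
    rwa [← e']
  · exact fun hv => ⟨v, hv, rfl⟩

theorem mem_toV' {S : Set (FF.Place k K)} {v : FF.Place k K} : v.O ∈ toV S ↔ v ∈ S := by
  constructor
  · rintro ⟨w, hw, e⟩
    have e' : w = v := O_inj e
    rwa [← e']
  · exact fun hv => ⟨v, hv, rfl⟩

theorem below (k : Type) {K : Type} [Field k] [Finite k] [Field K] [Algebra k K] [FF.IsFF k K]
    {A : ValuationSubring (SeparableClosure K)} (hA : A ≠ ⊤) : ∃ v : FF.Place k K, Above A v :=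
  comap_ne s_plc hA

theorem repF_of {S : Set (FF.Place k K)} {ρ : Gal K (SeparableClosure K) →* Matrix (Fin N) (Fin N) ℤ_[p]}
    (h : IsRep S ρ) : RepF (toV S) ρ := by
  refine ⟨h.cont, h.congr, fun A hA hAS g hg => ?_⟩
  obtain ⟨v, hv⟩ := below k hA
  exact h.unramified v (fun h1 => hAS ((mem_toV hv).2 h1)) A hv g hg

theorem selQ_iff {S : Set (FF.Place k K)} {ρ : Gal K (SeparableClosure K) →* Matrix (Fin N) (Fin N) ℤ_[p]}
    {L : IntermediateField K (SeparableClosure K)} {c : GalL L → Fin N → ℚ_[p]} :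
    SelQ (toV S) ρ L.fixingSubgroup c ↔ IsCocycle ρ c ∧ InSelmer S ρ c := by
  constructor
  · intro h
    refine ⟨⟨h.cont, h.mul⟩, ⟨fun v hv A hA => ?_, fun v hv A hA => ?_⟩⟩
    · exact h.strict A (above_ne hA) ((mem_toV hA).2 hv)
    · exact h.away A (above_ne hA) fun h1 => hv ((mem_toV hA).1 h1)
  · rintro ⟨h1, h2⟩
    refine ⟨h1.cont, h1.mul, fun A hA hAS => ?_, fun A hA hAS => ?_⟩
    · obtain ⟨v, hv⟩ := below k hA
      exact h2.outside v (fun h3 => hAS ((mem_toV hv).2 h3)) A hv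
    · obtain ⟨v, hv⟩ := below k hA
      exact h2.strict v ((mem_toV hv).1 hAS) A hv

/-- the conclusion for subgroups -/
def Des (S : Set (ValuationSubring K)) (ρ : Gal K (SeparableClosure K) →* Matrix (Fin N) (Fin N) ℤ_[p])
    (H H₀ : Subgroup (Gal K (SeparableClosure K))) : Prop :=
  ∀ c : H → Fin N → ℚ_[p], SelQ S ρ H c → ∃ c' : H₀ → Fin N → ℚ_[p], SelQ S ρ H₀ c' ∧
    ∃ x : Fin N → ℚ_[p], ∀ (σ : H) (τ : H₀), (τ : Gal K (SeparableClosure K)) = σ → c σ = c' τ + (mQ (ρ σ) x - x)

theorem comes_iff {S : Set (FF.Place k K)} {ρ : Gal K (SeparableClosure K) →* Matrix (Fin N) (Fin N) ℤ_[p]}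
    {L : IntermediateField K (SeparableClosure K)} : SelmerComesFromBase S ρ L ↔
      Des (toV S) ρ L.fixingSubgroup (⊥ : IntermediateField K (SeparableClosure K)).fixingSubgroup := by
  constructor
  · intro h c hc
    obtain ⟨h1, h2⟩ := selQ_iff.1 hc
    obtain ⟨c', h3, h4, x, hx⟩ := h c h1 h2
    exact ⟨c', selQ_iff.2 ⟨h3, h4⟩, x, hx⟩
  · intro h c h1 h2
    obtain ⟨c', h3, x, hx⟩ := h c (selQ_iff.2 ⟨h1, h2⟩)
    exact ⟨c', (selQ_iff.1 h3).1, (selQ_iff.1 h3).2, x, hx⟩

theorem rank_iff {S : Set (FF.Place k K)} {ρ : Gal K (SeparableClosure K) →* Matrix (Fin N) (Fin N) ℤ_[p]}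
    {L : IntermediateField K (SeparableClosure K)} {n : ℕ} :
    RankQ (toV S) ρ L.fixingSubgroup n ↔ SelmerDimAtLeast S ρ L n := by
  constructor
  · rintro ⟨c, hc, h⟩
    exact ⟨c, fun i => selQ_iff.1 (hc i), fun a ⟨x, hx⟩ => h a ⟨x, fun σ => hx σ (Set.mem_univ _)⟩⟩
  · rintro ⟨c, hc, h⟩
    exact ⟨c, fun i => selQ_iff.2 (hc i), fun a ⟨x, hx⟩ => h a ⟨x, fun σ _ => hx σ⟩⟩

section tate

variable {K : Type} [Field K] {p : ℕ}

theorem inT_iff {M : Type} [AddCommGroup M] [DistribMulAction (Gal K (SeparableClosure K)) M]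
    {L : IntermediateField K (SeparableClosure K)} (f : ℕ → GalL L → M) :
    InTateSha p f ↔ (∀ n, ShM (DsF K) L.fixingSubgroup (f n)) ∧
      (∃ m : M, ∀ σ : L.fixingSubgroup, f 0 σ = (σ : Gal K (SeparableClosure K)) • m - m) ∧
      ∀ n, ∃ m : M, ∀ σ : L.fixingSubgroup,
        p • f (n + 1) σ = f n σ + ((σ : Gal K (SeparableClosure K)) • m - m) := by
  have h1 : ∀ f : GalL L → M, InSha f ↔ ShM (DsF K) L.fixingSubgroup f := by
    intro f
    constructor
    · intro h
      refine ⟨⟨h.cocycle.cont, h.cocycle.mul⟩, ?_⟩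
      rintro D ⟨A, hA, rfl⟩
      exact h.locally_trivial A hA
    · intro h
      exact ⟨⟨h.coc.loc, h.coc.mul⟩, fun A hA => h.tri _ ⟨A, hA, rfl⟩⟩
  have h2 : ∀ f : GalL L → M, CoboundaryOn Set.univ f ↔
      ∃ m : M, ∀ σ : L.fixingSubgroup, f σ = (σ : Gal K (SeparableClosure K)) • m - m := by
    intro f
    constructor
    · rintro ⟨m, hm⟩
      exact ⟨m, fun σ => hm σ (Set.mem_univ _)⟩
    · rintro ⟨m, hm⟩
      exact ⟨m, fun σ _ => hm σ⟩
  have h3 : ∀ (f g : GalL L → M), CoboundaryOn Set.univ (fun σ => p • g σ - f σ) ↔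
      ∃ m : M, ∀ σ : L.fixingSubgroup, p • g σ = f σ + ((σ : Gal K (SeparableClosure K)) • m - m) := by
    intro f g
    rw [h2]
    refine exists_congr fun m => forall_congr' fun σ => ?_
    rw [sub_eq_iff_eq_add, add_comm]
  constructor
  · intro h
    exact ⟨fun n => (h1 _).1 (h.mem n), (h2 _).1 h.zero, fun n => (h3 _ _).1 (h.step n)⟩
  · rintro ⟨h4, h5, h6⟩
    exact ⟨fun n => (h1 _).2 (h4 n), (h2 _).2 h5, fun n => (h3 _ _).2 (h6 n)⟩

theorem cob_iff {M : Type} [AddCommGroup M] [DistribMulAction (Gal K (SeparableClosure K)) M]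
    {L : IntermediateField K (SeparableClosure K)} (f : GalL L → M) : CoboundaryOn Set.univ f ↔
      ∃ m : M, ∀ σ : L.fixingSubgroup, f σ = (σ : Gal K (SeparableClosure K)) • m - m := by
  constructor
  · rintro ⟨m, hm⟩
    exact ⟨m, fun σ => hm σ (Set.mem_univ _)⟩
  · rintro ⟨m, hm⟩
    exact ⟨m, fun σ _ => hm σ⟩

theorem tsh_iff {M : Type} [AddCommGroup M] [DistribMulAction (Gal K (SeparableClosure K)) M]
    {L : IntermediateField K (SeparableClosure K)} :
    TateShaZero M p L ↔ TSh M p (DsF K) L.fixingSubgroup := by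
  constructor
  · intro h f hf h0 hs n
    exact (cob_iff _).1 (h f ((inT_iff f).2 ⟨hf, h0, hs⟩) n)
  · intro h f hf n
    obtain ⟨h1, h2, h3⟩ := (inT_iff f).1 hf
    exact (cob_iff _).2 (h f h1 h2 h3 n)

/-- the isomorphism of the rational Tate modules for subgroups -/
def SameT (M : Type) [AddCommGroup M] [DistribMulAction (GK K) M] (p : ℕ) (Ds : Set (Subgroup (GK K)))
    (H H₀ : Subgroup (GK K)) : Prop :=
  (∀ f' : ℕ → H₀ → M, ((∀ n, ShM Ds H₀ (f' n)) ∧
      (∃ m : M, ∀ τ : H₀, f' 0 τ = (τ : GK K) • m - m) ∧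
      ∀ n, ∃ m : M, ∀ τ : H₀, p • f' (n + 1) τ = f' n τ + ((τ : GK K) • m - m)) →
    (∀ n, ∃ P : M, ∀ (σ : H) (τ : H₀), (τ : GK K) = (σ : GK K) → f' n τ = (σ : GK K) • P - P) →
      ∀ n, ∃ m : M, ∀ τ : H₀, f' n τ = (τ : GK K) • m - m) ∧
  ∀ f : ℕ → H → M, ((∀ n, ShM Ds H (f n)) ∧
      (∃ m : M, ∀ σ : H, f 0 σ = (σ : GK K) • m - m) ∧
      ∀ n, ∃ m : M, ∀ σ : H, p • f (n + 1) σ = f n σ + ((σ : GK K) • m - m)) →
    ∃ (a : ℕ) (f' : ℕ → H₀ → M), ((∀ n, ShM Ds H₀ (f' n)) ∧
      (∃ m : M, ∀ τ : H₀, f' 0 τ = (τ : GK K) • m - m) ∧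
      ∀ n, ∃ m : M, ∀ τ : H₀, p • f' (n + 1) τ = f' n τ + ((τ : GK K) • m - m)) ∧
      ∀ n, ∃ P : M, ∀ (σ : H) (τ : H₀), (τ : GK K) = (σ : GK K) →
        p ^ a • f n σ = f' n τ + ((σ : GK K) • P - P)

theorem same_of {M : Type} [AddCommGroup M] [DistribMulAction (Gal K (SeparableClosure K)) M]
    {L : IntermediateField K (SeparableClosure K)}
    (h : SameT M p (DsF K) L.fixingSubgroup
      (⊥ : IntermediateField K (SeparableClosure K)).fixingSubgroup) : SameTateSha M p L := by
  constructor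
  · intro f' hf' hr n
    exact (cob_iff _).2 (h.1 f' ((inT_iff f').1 hf') hr n)
  · intro f hf
    obtain ⟨a, f', h1, h2⟩ := h.2 f ((inT_iff f).1 hf)
    exact ⟨a, f', (inT_iff f').2 h1, h2⟩

end tate

theorem norm_iff (x : Fin N → ℚ_[p]) : (∀ j, ‖x j‖ ≤ 1) ↔ ∃ z : Fin N → ℤ_[p], x = cQ z := by
  constructor
  · intro h
    exact ⟨fun j => ⟨x j, h j⟩, rfl⟩
  · rintro ⟨z, rfl⟩ j
    exact (z j).2

omit [Finite k] [FF.IsFF k K] in
theorem fin_index {χ : GK K → ZMod p} (hχ : Hm χ) : (kerX hχ).FiniteIndex := by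
  have : NeZero p := ⟨hp.out.ne_zero⟩
  let f : GK K →* Multiplicative (ZMod p) :=
    { toFun := fun g => Multiplicative.ofAdd (χ g)
      map_one' := by
        rw [hm_one hχ]
        rfl
      map_mul' := fun g h => by
        rw [hχ.m]
        rfl }
  have e : f.ker = kerX hχ := by
    ext g
    rw [MonoidHom.mem_ker, mem_kerX]
    exact ofAdd_eq_one
  rw [← e]
  exact Subgroup.finiteIndex_ker f

omit [Finite k] [FF.IsFF k K] in
theorem ld_of {M : Type} [AddCommGroup M] [DistribMulAction (Gal K (SeparableClosure K)) M] {S : Set (FF.Place k K)}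
    (hM : LikePoints (SeparableClosure K) M S p) {χ : GK K → ZMod p} (hχ : Hm χ) :
    ∀ D ∈ DsF K, Ld M p (D ⊓ kerX hχ) := by
  rintro D ⟨A, hA, rfl⟩ P hP n
  exact hM.local_points A hA (kerX hχ) (kerX_open hχ) P hP n

/-- the points and the Tate-Shafarevich groups for one field -/
theorem points_of {S : Set (FF.Place k K)} {χ : GK K → ZMod p} (hχ : Hm χ)
    {L : IntermediateField K (SeparableClosure K)} (hfix : L.fixingSubgroup = kerX hχ)
    (hmain : ∀ (N : ℕ) (ρ : GK K →* Matrix (Fin N) (Fin N) ℤ_[p]), RepF (toV S) ρ →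
        ∀ c : kerX hχ → Fin N → ℚ_[p], SelQ (toV S) ρ (kerX hχ) c →
          ∃ c' : (⊤ : Subgroup (GK K)) → Fin N → ℚ_[p], SelQ (toV S) ρ ⊤ c' ∧ ∃ x : Fin N → ℚ_[p],
            ∀ (σ : kerX hχ) (τ : (⊤ : Subgroup (GK K))), (τ : GK K) = σ →
              c σ = c' τ + (mQ (ρ σ) x - x)) : SelmerStable p S L ∧ PointsStable p S L := by
  refine ⟨fun N ρ hρ => ?_, ?_⟩
  · rw [comes_iff, hfix, IntermediateField.fixingSubgroup_bot]
    exact hmain N ρ (repF_of hρ)
  · intro M _ _ hM
    obtain ⟨N, ρ, φ, hρ, hker, htor, heqv⟩ := hM.torsion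
    have hMo : Mo ρ M φ := ⟨hM.open_stabilizer, hM.divisible,
      fun x => (hker x).trans (norm_iff x), htor, heqv⟩
    have hdsc : Dsc (DsF K) ρ (kerX hχ) :=
      dsc_of_sel s_avg hχ (hmain N ρ (repF_of hρ))
    have hld := ld_of hM hχ
    have hnor := kerX_normal hχ
    have hfi := fin_index hχ
    have t_lft : S_lft := s_lft s_ulim
    have t_lcl : S_lcl := s_lcl s_cpt
    constructor
    · intro P hP
      rw [hfix] at hP
      obtain ⟨n, hn, hn'⟩ := s_rk t_lft t_lcl p (GK K) N ρ M φ hMo (DsF K) (kerX hχ) hld hdsc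
        (hM.mordell_weil (kerX hχ) (kerX_open hχ)) P hP
      exact ⟨n, hn, fun τ _ => hn' τ (Subgroup.mem_top τ)⟩
    refine ⟨same_of ?_, ?_⟩
    · rw [hfix, IntermediateField.fixingSubgroup_bot]
      refine ⟨fun f' hf' hr => Pool.Agent.NH7.GH.inj_tate s_avg p (GK K) χ hχ.m (kerX hχ)
        (fun g => Iff.rfl) M (DsF K) f' hf'.1 hf'.2.2 fun n => ?_, fun f hf => ?_⟩
      · obtain ⟨P, hP⟩ := hr n
        exact ⟨P, fun σ => hP σ ⟨σ, Subgroup.mem_top _⟩ rfl⟩
      · obtain ⟨a, f', h1, h2, h3, h4⟩ := Pool.Agent.NH7.GH.up_tate t_lft s_avg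
          Pool.Agent.NH7.BK.s_int p (GK K) N ρ M φ hMo χ hχ.m (DsF K) (kerX hχ)
          (fun g => Iff.rfl) (Pool.Agent.NH7.GH.dscT_of_dsc t_lcl p (GK K) N ρ M φ hMo (DsF K)
            (kerX hχ) hld hdsc) f hf.1 hf.2.1 hf.2.2
        exact ⟨a, f', ⟨h1, h2, h3⟩, h4⟩
    · rw [tsh_iff, tsh_iff, hfix, IntermediateField.fixingSubgroup_bot]
      exact ⟨s_dn s_avg p (GK K) χ hχ.c hχ.m (kerX hχ) (fun g => Iff.rfl) M (DsF K),
        s_up t_lft t_lcl Pool.Agent.NH7.BK.s_int p (GK K) N ρ M φ hMo (DsF K) (kerX hχ) hld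
          hdsc⟩

/-! ### The ensemble -/

variable {ζ : K} (hζ : IsPrimitiveRoot ζ p)

theorem powerAt_iff (κ : Kˣ) (v : FF.Place k K) :
    PowerAt p v (κ : K) ↔ ∀ g ∈ (kdF hζ (t_lf (k := k) hζ)).D v, (kdF hζ (t_lf (k := k) hζ)).kp κ g = 0 := by
  have h := t_lf (k := k) hζ
  constructor
  · intro hP g hg
    exact (kp_zero_iff hζ (rt_pow hζ κ)).2 (hP.2 (Av v) (h.ab v) (rt p κ) (rt_pow hζ κ) g hg)
  · intro h0
    refine ⟨κ.ne_zero, fun A hA x hx σ hσ => (kp_zero_iff hζ hx).1 ?_⟩
    obtain ⟨a, ha⟩ := Av_mv hζ h s_cnj (v := v) hA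
    have h3 : a * σ * a⁻¹ ∈ Pool.Agent.NH7.GF.Dec (Av v) := by
      rw [← ha]
      exact (Dec_mv a σ).1 hσ
    have h4 := h0 _ h3
    have h5 : kp hζ κ (a * σ * a⁻¹) = kp hζ κ σ :=
      hm_conj (X := kp hζ κ) ⟨kp_cont hζ κ, kp_mul_right hζ κ⟩ a σ
    rw [← h5]
    exact h4

theorem fits_iff (s : Dat (kdF hζ (t_lf (k := k) hζ))) {n : ℕ} {z : Fin n → ZMod p} {q : Fin n → FF.Place k K}
    {D : Kˣ} : Fits p s.T (s.D₀ : K) z q (D : K) ↔ Fit s z q D := by
  have hd : ∀ v : FF.Place k K, PowerAt p v ((D : K) / (s.D₀ : K)) ↔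
      ∀ g ∈ (kdF hζ (t_lf (k := k) hζ)).D v, (kdF hζ (t_lf (k := k) hζ)).kp D g =
        (kdF hζ (t_lf (k := k) hζ)).kp s.D₀ g := by
    intro v
    rw [← Units.val_div_eq_div_val, powerAt_iff hζ]
    refine forall_congr' fun g => imp_congr_right fun _ => ?_
    rw [div_eq_mul_inv, KD.kp_mul, KD.kp_inv, ← sub_eq_add_neg, sub_eq_zero]
  constructor
  · intro h
    exact ⟨h.ram, fun v hv => (hd v).1 (h.loc v hv)⟩
  · intro h
    exact ⟨D.ne_zero, h.ord, fun v hv => (hd v).2 (h.loc v hv)⟩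

theorem kummer_fix {D : Kˣ} {L : IntermediateField K (SeparableClosure K)} (hL : IsKummer p (D : K) L) (g : GK K) :
    g ∈ L.fixingSubgroup ↔ kp hζ D g = 0 := by
  obtain ⟨x, hx, rfl⟩ := hL
  rw [IntermediateField.mem_fixingSubgroup_iff, kp_zero_iff hζ hx]
  constructor
  · intro h
    exact h x (IntermediateField.mem_adjoin_simple_self K x)
  · intro h
    have h1 : IntermediateField.adjoin K {x} ≤ IntermediateField.fixedField
        (Subgroup.zpowers g) := by
      rw [IntermediateField.adjoin_simple_le_iff]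
      rintro ⟨τ', hτ'⟩
      obtain ⟨n, rfl⟩ := Subgroup.mem_zpowers_iff.1 hτ'
      change (g ^ n) x = x
      have h2 : g ∈ MulAction.stabilizer (GK K) x := h
      exact (Subgroup.zpow_mem _ h2 n : _)
    intro a ha
    exact h1 ha ⟨g, Subgroup.mem_zpowers g⟩

include hζ in
theorem exists_kummer (D : Kˣ) : ∃ L : IntermediateField K (SeparableClosure K), IsKummer p (D : K) L :=
  ⟨_, rt p D, rt_pow hζ D, rfl⟩

/-- the character of an element which fits, and its field -/
theorem exists_chr (s : Dat (kdF hζ (t_lf (k := k) hζ))) {n : ℕ} {z : Fin (n + 1) → ZMod p} (hz : ∀ i, z i ≠ 0)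
    {q : Fin (n + 1) → FF.Place k K} (hq : q ∈ Gt s (n + 1)) {D : Kˣ} (hD : Fit s z q D) :
    ∃ c : Chr p (GK K), ∀ g, c.χ g = kp hζ D g := by
  have h1 : ∃ g, kp hζ D g ≠ 0 := by
    by_contra hne
    push Not at hne
    have h2 := (kdF hζ (t_lf (k := k) hζ)).dvd_of_inr (q 0) D fun g _ => hne g
    rw [← ZMod.intCast_zmod_eq_zero_iff_dvd, ord_at hq hD] at h2
    exact hz 0 h2
  obtain ⟨g, hg⟩ := h1
  obtain ⟨σ, hσ⟩ := hm_ex (X := kp hζ D) ⟨kp_cont hζ D, kp_mul_right hζ D⟩ hg
  exact ⟨⟨kp hζ D, kp_cont hζ D, kp_mul_right hζ D, σ, hσ⟩, fun _ => rfl⟩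

theorem field_eq {χ : GK K → ZMod p} (hχ : Hm χ) {D : Kˣ} (hD : ∀ g, χ g = kp hζ D g)
    {L : IntermediateField K (SeparableClosure K)} (hL : IsKummer p (D : K) L) :
    L.fixingSubgroup = kerX hχ ∧ L = fld hχ := by
  have h1 : L.fixingSubgroup = kerX hχ := by
    ext g
    rw [kummer_fix hζ hL, mem_kerX, hD]
  refine ⟨h1, ?_⟩
  have h2 : L.fixingSubgroup = (fld hχ).fixingSubgroup := by rw [h1, fld_fix]
  have h3 := congrArg IntermediateField.fixedField h2
  rwa [InfiniteGalois.fixedField_fixingSubgroup, InfiniteGalois.fixedField_fixingSubgroup] at h3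

end proof

section proof2

open Pool.Agent.NH7.GF Pool.Agent.H517.FF
open Pool.Agent.NH7.GU (Chr)

theorem iterated_eq {P : Type} (m : (P → ℝ≥0∞) → ℝ≥0∞) : ∀ (n : ℕ) (f : (Fin n → P) → ℝ≥0∞),
    iterated m n f = It m n f
  | 0, _ => rfl
  | n + 1, f => iterated_eq m n _

variable {k K : Type} [Field k] [Finite k] [Field K] [Algebra k K] [FF.IsFF k K]

omit [Finite k] [FF.IsFF k K] in
theorem deg_eq (v : FF.Place k K) : deg v = v.deg := by
  have e : resHom v = v.constHom := RingHom.ext fun c => (v.red_of_reg (v.reg_const c)).symm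
  unfold deg
  rw [e]
  rfl

theorem upperMean_eq : upperMean k K = (WF k K).U := by
  funext f
  unfold upperMean
  simp only [deg_eq]
  rfl

theorem lowerMean_eq : lowerMean k K = (WF k K).L := by
  funext f
  unfold lowerMean
  simp only [deg_eq]
  rfl

theorem upper_eq {n : ℕ} (A : Set (Fin n → FF.Place k K)) :
    upperDensity k K A = It (WF k K).U n (ind A) := by
  unfold upperDensity
  rw [upperMean_eq, iterated_eq]
  rfl

theorem lower_eq {n : ℕ} (A : Set (Fin n → FF.Place k K)) :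
    lowerDensity k K A = It (WF k K).L n (ind A) := by
  unfold lowerDensity
  rw [lowerMean_eq, iterated_eq]
  rfl

theorem dens_univ (h1 : (WF k K).U (fun _ => 1) ≤ 1) (h2 : 1 ≤ (WF k K).L (fun _ => 1)) (n : ℕ) :
    lowerDensity k K (Set.univ : Set (Fin n → FF.Place k K)) = 1 ∧
      upperDensity k K (Set.univ : Set (Fin n → FF.Place k K)) = 1 := by
  rw [upper_eq, lower_eq]
  obtain ⟨hLU, hmon, -, -, -, hone⟩ := t_mi (FF.Place k K) (WF k K) n
  have e : ind (Set.univ : Set (Fin n → FF.Place k K)) = fun _ => 1 := by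
    funext q
    exact if_pos (Set.mem_univ q)
  rw [e]
  have hU : It (WF k K).U n (fun _ => 1) ≤ 1 := hone h1 1 ENNReal.one_ne_top
  have hL : 1 ≤ It (WF k K).L n (fun _ => 1) := by
    clear hLU hmon hone hU e
    induction n with
    | zero => exact le_refl _
    | succ n ih =>
      refine ih.trans ?_
      exact ((t_mi (FF.Place k K) (WF k K) n).2.1 _ _ fun _ => h2).2
  have hLU' := hLU (fun _ => 1)
  exact ⟨le_antisymm (hLU'.trans hU) hL, le_antisymm hU (hL.trans hLU')⟩

/-- from the bound of the mean to the bound of the share -/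
theorem arith {δ X e : ℝ≥0∞} {c : ℕ} (hc : c ≠ 0) {ε : ℝ} (hε : 0 < ε) (he : e ≤ ENNReal.ofReal ε)
    (h : (c : ℝ≥0∞) * X ≤ δ * (1 + e)) : X ≤ ENNReal.ofReal (1 / (c : ℝ) + ε) * δ := by
  have hc0 : (c : ℝ≥0∞) ≠ 0 := by exact_mod_cast hc
  have hct : (c : ℝ≥0∞) ≠ ⊤ := ENNReal.natCast_ne_top c
  have h1 : X ≤ (c : ℝ≥0∞)⁻¹ * (δ * (1 + e)) := by
    calc X = (c : ℝ≥0∞)⁻¹ * ((c : ℝ≥0∞) * X) := by
          rw [← mul_assoc, ENNReal.inv_mul_cancel hc0 hct, one_mul]
      _ ≤ _ := by gcongr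
  refine h1.trans ?_
  have hcr : (0 : ℝ) < c := by exact_mod_cast Nat.pos_of_ne_zero hc
  have h2 : ENNReal.ofReal (1 / (c : ℝ) + ε) = (c : ℝ≥0∞)⁻¹ + ENNReal.ofReal ε := by
    rw [ENNReal.ofReal_add (by positivity) hε.le, one_div, ENNReal.ofReal_inv_of_pos hcr,
      ENNReal.ofReal_natCast]
  have h3 : (c : ℝ≥0∞)⁻¹ * e ≤ ENNReal.ofReal ε := by
    refine le_trans ?_ he
    have h4 : (c : ℝ≥0∞)⁻¹ ≤ 1 := by
      rw [ENNReal.inv_le_one]
      exact_mod_cast Nat.one_le_iff_ne_zero.2 hc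
    calc (c : ℝ≥0∞)⁻¹ * e ≤ 1 * e := by gcongr
      _ = e := one_mul e
  rw [h2]
  calc (c : ℝ≥0∞)⁻¹ * (δ * (1 + e)) = ((c : ℝ≥0∞)⁻¹ + (c : ℝ≥0∞)⁻¹ * e) * δ := by ring
    _ ≤ _ := by gcongr

/-- the complement of the bad set -/
theorem arith2 {δ X Y : ℝ≥0∞} (hδ : δ ≠ ⊤) {b : ℝ} (hb : 0 ≤ b) (h : δ ≤ X + Y)
    (hY : Y ≤ ENNReal.ofReal b * δ) : ENNReal.ofReal (1 - b) * δ ≤ X := by
  by_cases h1 : b ≤ 1
  · have h2 : ENNReal.ofReal (1 - b) * δ + ENNReal.ofReal b * δ ≤ X + ENNReal.ofReal b * δ := by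
      rw [← add_mul, ← ENNReal.ofReal_add (by linarith) hb, sub_add_cancel, ENNReal.ofReal_one, one_mul]
      exact h.trans (by gcongr)
    exact (ENNReal.add_le_add_iff_right (ENNReal.mul_ne_top ENNReal.ofReal_ne_top hδ)).1 h2
  · rw [ENNReal.ofReal_of_nonpos (by linarith), zero_mul]
    exact zero_le

theorem exists_small {p : ℕ} [hp : Fact p.Prime] (c : ℕ) {ε : ℝ} (hε : 0 < ε) :
    ∃ n₀ : ℕ, ∀ n, n₀ ≤ n → (c : ℝ≥0∞) * ((p : ℝ≥0∞)⁻¹) ^ n ≤ ENNReal.ofReal ε := by
  have h1 : (p : ℝ≥0∞)⁻¹ < 1 := by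
    rw [ENNReal.inv_lt_one]
    exact_mod_cast hp.out.one_lt
  have h2 := ENNReal.Tendsto.const_mul (a := (c : ℝ≥0∞))
    (ENNReal.tendsto_pow_atTop_nhds_zero_of_lt_one h1) (Or.inr (ENNReal.natCast_ne_top c))
  rw [mul_zero] at h2
  have h3 := h2.eventually (gt_mem_nhds (ENNReal.ofReal_pos.2 hε))
  obtain ⟨n₀, hn₀⟩ := Filter.eventually_atTop.1 h3
  exact ⟨n₀, fun n hn => (hn₀ n hn).le⟩

end proof2

open Pool.Agent.NH7.GF Pool.Agent.H517.FF in
open Pool.Agent.NH7.GU (Chr) in
/-- **Main result.** -/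
theorem result {k : Type} [Field k] [Finite k] {K : Type} [Field K] [Algebra k K]
    [Algebra.EssFiniteType k K] (htr : Algebra.trdeg k K = 1) {p : ℕ} [hp : Fact p.Prime]
    (hp2 : p ≠ 2) (hroot : ∃ ζ : K, IsPrimitiveRoot ζ p) :
    (∀ n : ℕ, lowerDensity k K (Set.univ : Set (Fin n → FF.Place k K)) = 1 ∧
      upperDensity k K (Set.univ : Set (Fin n → FF.Place k K)) = 1) ∧
    (∀ S : Set (FF.Place k K), S.Finite → ∃ d₀ : K, d₀ ≠ 0 ∧ ∀ v ∈ S, ¬ PowerAt p v d₀) ∧
    ∃ T₀ : Finset (FF.Place k K), ∀ T : Finset (FF.Place k K), T₀ ⊆ T →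
      ∀ S : Set (FF.Place k K), (∀ v ∈ S, v ∈ T) →
      ∀ d₀ : K, d₀ ≠ 0 → (∀ v ∈ S, ¬ PowerAt p v d₀) →
      (∀ (n : ℕ) (z : Fin (n + 1) → ZMod p), (∀ i, z i ≠ 0) → ∀ q ∈ Ensemble p T d₀ z,
        (∃ L, Belongs p T d₀ z q L) ∧ ∀ L, Belongs p T d₀ z q L →
          (IsGalois K L ∧ IsCyclic (L ≃ₐ[K] L) ∧ Module.finrank K L = p) ∧
          ∀ L', Belongs p T d₀ z q L' → L' = L) ∧
      ∃ δ : ℝ≥0∞, δ ≠ 0 ∧ δ ≠ ⊤ ∧
        (∀ (n : ℕ) (z : Fin (n + 1) → ZMod p), (∀ i, z i ≠ 0) →
          lowerDensity k K (Ensemble p T d₀ z) = δ ∧ upperDensity k K (Ensemble p T d₀ z) = δ) ∧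
        ∀ ε : ℝ, 0 < ε → ∃ n₀ : ℕ, ∀ n, n₀ ≤ n → ∀ z : Fin n → ZMod p, (∀ i, z i ≠ 0) →
          ENNReal.ofReal (1 - (1 / ((p : ℝ) - 1) + ε)) * δ ≤
            lowerDensity k K {q ∈ Ensemble p T d₀ z | ∀ L, Belongs p T d₀ z q L →
              SelmerStable p S L ∧ PointsStable p S L} ∧
          ∀ t : ℕ, upperDensity k K {q ∈ Ensemble p T d₀ z | ∃ L, Belongs p T d₀ z q L ∧
              ∃ (N : ℕ) (ρ : Gal K (SeparableClosure K) →* Matrix (Fin N) (Fin N) ℤ_[p]), IsRep S ρ ∧
                ∃ s, ¬ SelmerDimAtLeast S ρ (⊥ : IntermediateField K (SeparableClosure K)) (s + 1) ∧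
                  SelmerDimAtLeast S ρ L (s + 1 + (p - 1) * (N * t))} ≤
            ENNReal.ofReal (1 / ((p : ℝ) ^ (t + 1) - 1) + ε) * δ := by
  classical
  have : FF.IsFF k K := ⟨inferInstance, htr⟩
  obtain ⟨ζ, hζ⟩ := hroot
  have h := t_lf (k := k) hζ
  have hgl := t_gl (k := k) hζ hp2
  have hdn : Dn (kdF hζ (t_lf (k := k) hζ)) (WF k K) := t_dn k K p ζ hζ (t_lf hζ) hp2
  refine ⟨dens_univ hdn.one hdn.one', fun S hS => ?_, ?_⟩
  · obtain ⟨χ, hχ, -, hram⟩ := exists_ram k hζ (S := toV S) (hS.image _)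
    obtain ⟨κ, hκ⟩ := kp_surj hζ hχ.c hχ.m
    refine ⟨κ, κ.ne_zero, fun v hv hP => ?_⟩
    have hab : Above (Av v) v := h.ab v
    obtain ⟨g, hg, hg0⟩ := hram (Av v) (above_ne hab) ((mem_toV hab).2 hv)
    apply hg0
    rw [← hκ]
    exact (powerAt_iff hζ κ v).1 hP g (Inr_le _ hg)
  obtain ⟨T₀, hT₀, hst⟩ := t_st p Kˣ (GK K) (FF.Place k K) (kdF hζ (t_lf (k := k) hζ)) hgl
    (WF k K) hdn
  refine ⟨T₀, fun T hT S hST d₀ hd₀ hnp => ?_⟩
  obtain ⟨D₀, rfl⟩ : ∃ D₀ : Kˣ, (D₀ : K) = d₀ := ⟨Units.mk0 d₀ hd₀, rfl⟩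
  obtain ⟨hcls, hsha⟩ := hst T hT
  obtain ⟨lam, hl0, hl1, hl2⟩ := s_lm p Kˣ (GK K) (FF.Place k K) (kdF hζ (t_lf (k := k) hζ)) hgl D₀
  let s : Dat (kdF hζ (t_lf (k := k) hζ)) := ⟨T, D₀, lam, hT₀.mono hT, hcls, hsha, fun v _ => hl0 v⟩
  have hS0 : ∀ v : FF.Place k K, v.O ∈ toV S → ∃ g ∈ (kdF hζ (t_lf (k := k) hζ)).D v,
      (kdF hζ (t_lf (k := k) hζ)).kp s.D₀ g ≠ 0 := by
    intro v hv
    by_contra hne
    push Not at hne
    exact hnp v (mem_toV'.1 hv) ((powerAt_iff hζ D₀ v).2 hne)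
  have hSmall : ∀ {n : ℕ} {z : Fin (n + 1) → ZMod p}, (∀ i, z i ≠ 0) →
      ∀ {q : Fin (n + 1) → FF.Place k K}, q ∈ Gt s (n + 1) → ∀ {D : Kˣ}, Fit s z q D →
      ∀ c : Chr p (GK K), (∀ g, c.χ g = kp hζ D g) → ∀ {t : ℕ}, ¬ Mny s q D t →
        Pool.Agent.H517.X.Small (plF (toV S)) ∅ c t := by
    intro n z hz q hq D hD c hc t hM
    exact small_of (fun v hv => hST v (mem_toV'.1 hv)) hS0 hl1 hl2 hz hq hD c hc hM
  have hns : ∀ {n : ℕ} {z : Fin (n + 1) → ZMod p} {q : Fin (n + 1) → FF.Place k K} {D : Kˣ}, Fit s z q D →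
      ∀ c : Chr p (GK K), (∀ g, c.χ g = kp hζ D g) →
      ∀ A : ValuationSubring (SeparableClosure K), A ≠ ⊤ →
        A.comap (algebraMap K (SeparableClosure K)) ∈ toV S →
        ∃ g ∈ Pool.Agent.NH7.GF.Dec A, c.χ g ≠ 0 := by
    intro n z q D hD c hc A hA hAS
    obtain ⟨v, hv⟩ := below k hA
    have hvS := (mem_toV hv).1 hAS
    obtain ⟨g, hg, hg0⟩ := hS0 v (mem_toV'.2 hvS)
    obtain ⟨a, ha⟩ := Av_mv hζ h s_cnj (v := v) hv
    refine ⟨a⁻¹ * g * a, ?_, ?_⟩
    · rw [Dec_mv a, ha]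
      have e2 : a * (a⁻¹ * g * a) * a⁻¹ = g := by group
      rw [e2]
      exact hg
    · have e3 := hm_conj (X := c.χ) ⟨c.c, c.m⟩ a⁻¹ g
      rw [inv_inv] at e3
      rw [e3, hc]
      have e4 := hD.loc v (hST v hvS) g hg
      intro h0
      exact hg0 (e4.symm.trans h0)
  have hEns : ∀ {n : ℕ} (z : Fin n → ZMod p), Ensemble p T (D₀ : K) z = All s z := by
    intro n z
    ext q
    constructor
    · rintro ⟨hq, d, hd⟩
      obtain ⟨D, rfl⟩ : ∃ D : Kˣ, (D : K) = d := ⟨Units.mk0 d hd.ne, rfl⟩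
      exact ⟨hq, D, (fits_iff hζ s).1 hd⟩
    · rintro ⟨hq, D, hD⟩
      exact ⟨hq, D, (fits_iff hζ s).2 hD⟩
  have hunit : ∀ {n : ℕ} {z : Fin n → ZMod p} {q : Fin n → FF.Place k K}
      {L : IntermediateField K (SeparableClosure K)}, Belongs p T (D₀ : K) z q L →
      ∃ D : Kˣ, Fit s z q D ∧ IsKummer p (D : K) L := by
    rintro n z q L ⟨d, hd, hL⟩
    obtain ⟨D, rfl⟩ : ∃ D : Kˣ, (D : K) = d := ⟨Units.mk0 d hd.ne, rfl⟩
    exact ⟨D, (fits_iff hζ s).1 hd, hL⟩
  have hfin : Finite ((kdF hζ (t_lf (k := k) hζ)).Cq s.T ((kdF hζ (t_lf (k := k) hζ)).H0 s.T)) :=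
    s_fin p Kˣ (GK K) (FF.Place k K) _ hgl _ _ le_rfl
  set δ : ℝ≥0∞ := (Nat.card ((kdF hζ (t_lf (k := k) hζ)).Cq s.T
    ((kdF hζ (t_lf (k := k) hζ)).H0 s.T)) : ℝ≥0∞)⁻¹ with hδ
  have hδ0 : δ ≠ 0 := ENNReal.inv_ne_zero.2 (ENNReal.natCast_ne_top _)
  have hδt : δ ≠ ⊤ := ENNReal.inv_ne_top.2 (by exact_mod_cast Nat.card_pos.ne')
  have hdens : ∀ (n : ℕ) (z : Fin (n + 1) → ZMod p), (∀ i, z i ≠ 0) →
      It (WF k K).L (n + 1) (ind (All s z)) = δ ∧ It (WF k K).U (n + 1) (ind (All s z)) = δ :=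
    fun n z hz => t_al p Kˣ (GK K) (FF.Place k K) _ hgl (WF k K) hdn s n z hz
  refine ⟨fun n z hz q hq => ?_, δ, hδ0, hδt, fun n z hz => ?_, fun ε hε => ?_⟩
  · rw [hEns] at hq
    obtain ⟨hqG, D, hD⟩ := hq
    refine ⟨?_, fun L hL => ?_⟩
    · obtain ⟨L, hL⟩ := exists_kummer hζ D
      exact ⟨L, D, (fits_iff hζ s).2 hD, hL⟩
    · obtain ⟨D', hD', hL'⟩ := hunit hL
      obtain ⟨c, hc⟩ := exists_chr hζ s hz hqG hD'
      have hχ : Hm c.χ := ⟨c.c, c.m⟩
      obtain ⟨-, e⟩ := field_eq hζ hχ hc hL'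
      have hcyc := fld_cyc hχ c.hσ
      refine ⟨?_, fun L2 hL2 => ?_⟩
      · rw [e]
        exact ⟨fld_gal hχ, hcyc.1, hcyc.2⟩
      · obtain ⟨D2, hD2, hk2⟩ := hunit hL2
        have huq := s_uq p Kˣ (GK K) (FF.Place k K) (kdF hζ (t_lf (k := k) hζ)) s (n + 1) z q D' D2 hD' hD2
        obtain ⟨-, e2⟩ := field_eq hζ hχ (D := D2) (fun g => (hc g).trans (huq g)) hk2
        rw [e, e2]
  · rw [lower_eq, upper_eq, hEns]
    exact hdens n z hz
  obtain ⟨n₀, hn₀⟩ := exists_small (p := p)
    (Nat.card ((kdF hζ (t_lf (k := k) hζ)).Sel s.T s.lam)) hε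
  refine ⟨n₀ + 1, fun n hn z hz => ?_⟩
  obtain ⟨m, rfl⟩ : ∃ m, n = m + 1 := ⟨n - 1, by omega⟩
  have hpt : ∀ t : ℕ, 1 < p ^ (t + 1) := fun t => Nat.one_lt_pow (Nat.succ_ne_zero t) hp.out.one_lt
  have hB : ∀ t : ℕ, It (WF k K).U (m + 1) (ind {q | q ∈ Gt s (m + 1) ∧ ∃ D, Fit s z q D ∧ Mny s q D (t + 1)}) ≤
      ENNReal.ofReal (1 / ((p : ℝ) ^ (t + 1) - 1) + ε) * δ := by
    intro t
    have h1 := t_bd p Kˣ (GK K) (FF.Place k K) _ hgl (WF k K) hdn s m z hz (t + 1)
    have h2 := arith (c := p ^ (t + 1) - 1) (Nat.sub_ne_zero_of_lt (hpt t)) hε (hn₀ m (by omega)) h1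
    have h3 : ((p ^ (t + 1) - 1 : ℕ) : ℝ) = (p : ℝ) ^ (t + 1) - 1 := by
      rw [Nat.cast_sub (hpt t).le]
      push_cast
      ring
    rwa [h3] at h2
  have hbad : ∀ t : ℕ, {q ∈ Ensemble p T (D₀ : K) z | ∃ L, Belongs p T (D₀ : K) z q L ∧
              ∃ (N : ℕ) (ρ : Gal K (SeparableClosure K) →* Matrix (Fin N) (Fin N) ℤ_[p]), IsRep S ρ ∧
                ∃ s, ¬ SelmerDimAtLeast S ρ (⊥ : IntermediateField K (SeparableClosure K)) (s + 1) ∧
                  SelmerDimAtLeast S ρ L (s + 1 + (p - 1) * (N * t))} ⊆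
      {q | q ∈ Gt s (m + 1) ∧ ∃ D, Fit s z q D ∧ Mny s q D (t + 1)} := by
    rintro t q ⟨hq, L, hL, N, ρ, hρ, r, hr1, hr2⟩
    rw [hEns] at hq
    obtain ⟨D, hD, hK⟩ := hunit hL
    refine ⟨hq.1, D, hD, ?_⟩
    by_contra hM
    obtain ⟨c, hc⟩ := exists_chr hζ s hz hq.1 hD
    have hχ : Hm c.χ := ⟨c.c, c.m⟩
    obtain ⟨e, -⟩ := field_eq hζ hχ hc hK
    have hker : c.ker = kerX hχ := Subgroup.ext fun g => Iff.rfl
    apply hr1
    rw [← rank_iff, IntermediateField.fixingSubgroup_bot]
    refine mainQ hp2 c (hns hD c hc) (hSmall hz hq.1 hD c hc hM) (repF_of hρ) r ?_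
    rw [hker, ← e, rank_iff, add_comm]
    exact hr2
  refine ⟨?_, fun t => ?_⟩
  · rw [lower_eq]
    have hB0 := hB 0
    rw [zero_add, pow_one] at hB0
    refine arith2 hδt ?_ ?_ hB0
    · have hp1 : (1 : ℝ) < p := by exact_mod_cast hp.out.one_lt
      have : 0 < (p : ℝ) - 1 := by linarith
      positivity
    · obtain ⟨-, hmon, hLadd, -, -, -⟩ := t_mi (FF.Place k K) (WF k K) (m + 1)
      rw [← (hdens m z hz).1]
      refine le_trans (hmon _ _ fun q => ?_).2 (hLadd _ _)
      unfold ind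
      by_cases hq : q ∈ All s z
      · rw [if_pos hq]
        by_cases hM : q ∈ {q | q ∈ Gt s (m + 1) ∧ ∃ D, Fit s z q D ∧ Mny s q D (0 + 1)}
        · rw [if_pos (show q ∈ {q | q ∈ Gt s (m + 1) ∧ ∃ D, Fit s z q D ∧ Mny s q D 1} from hM)]
          exact le_add_self
        · rw [if_pos]
          · exact le_self_add
          refine ⟨by rw [hEns]; exact hq, fun L hL => ?_⟩
          obtain ⟨D, hD, hK⟩ := hunit hL
          obtain ⟨c, hc⟩ := exists_chr hζ s hz hq.1 hD
          have hχ : Hm c.χ := ⟨c.c, c.m⟩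
          obtain ⟨e, -⟩ := field_eq hζ hχ hc hK
          have hM' : ¬ Mny s q D 1 := fun hM' => hM ⟨hq.1, D, hD, hM'⟩
          have hmin := min_of_small (hSmall hz hq.1 hD c hc hM')
          exact points_of hχ e fun N ρ hρ f₀ hf₀ => sel_of_min hp2 c (hns hD c hc) hmin hχ hρ f₀ hf₀
      · rw [if_neg hq]
        exact zero_le
  · rw [upper_eq]
    refine le_trans ((t_mi (FF.Place k K) (WF k K) (m + 1)).2.1 _ _ fun q => ?_).1 (hB t)
    unfold ind
    split_ifs with h1 h2
    · exact le_refl _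
    · exact absurd (hbad t h1) h2
    · exact zero_le
    · exact le_refl _

end Pool.Agent.Results.MP_48b749_nt.MostCyclicExtensions
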