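import Pool.Agent.H467.MR.Sim

/-!
# Simultaneous quadratic twists of several elliptic curves over `k(t)`

Let `k` be any finite field of characteristic at least five, with `q` elements, and `K = k(t)`. Let
`E_i : y ^ 2 = x ^ 3 + a_i x + b_i`, `i = 1, ..., m`, be elliptic curves over `K` with polynomials
`a_i`, `b_i`, without points of order two over `K`, such that for every `i` there is an irreducible
polynomial `P_i` which does not divide `a_i`, divides `4 a_i ^ 3 + 27 b_i ^ 2` to an odd power and does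
not divide `4 a_j ^ 3 + 27 b_j ^ 2` for `j ≠ i` (so `E_i` has multiplicative reduction at `P_i`, with
odd exponent of the discriminant, and the other curves have good reduction at `P_i`). Such curves are
not isotrivial.

Theorem. There are many monic squarefree polynomials `D` for which simultaneously all the quadratic
twists `E_i ^ D : y ^ 2 = x ^ 3 + a_i D ^ 2 x + b_i D ^ 3` have a finite group of `K`-rational points,
of odd order, and trivial 2-primary part of the Tate-Shafarevich group: if `N_d` is the number of these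
`D` of degree `d` then the sum of the `N_d / q ^ d` for `d ≤ n` is at least a positive constant times
`n ^ (3 ^ (- m))` for all large `n`, and `N_d` is at least this constant times
`q ^ d d ^ (3 ^ (- m) - 1)` for infinitely many `d`.

By the known theorem of Artin, Tate and Milne all these twists satisfy the conjecture of Birch and
Swinnerton-Dyer, with rank `0` and `L(1 / q, E_i ^ D) ≠ 0`, simultaneously.

The proof: let `L_i` be the cubic extension of `K` given by the points of order two of `E_i`. There is a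
finite set `S_i` of primes with exactly one root of the `i`-th cubic polynomial, and no root of
the others, such that the elements of the groups of the 2-descent (for all the twists in the following
family at once) which are locally trivial at the primes of `S_i` are trivial. The relaxed groups are
isotropic for a quadratic form (quadratic reciprocity) which is computed at the primes of `S_i`, and
linear algebra gives a subset `J_i` of `S_i` such that for all products `D'` of primes `Q`, modulo which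
no cubic polynomial has a root, the twist of `E_i` by `D = D' ∏_j ∏_{Q ∈ J_j} Q` has a trivial 2-Selmer
group, if `D` has even degree and is a square modulo the bad primes different from `P_i`: the
prime `P_i`, where the class of `D` is free, gives the missing condition by reciprocity. The density of
the primes `Q` is `3 ^ (- m)` (the 2-division fields are independent, as `P_i` shows); this is counted
with the zeta functions of all finite extensions of `K` and a Tauberian argument.

Project MR: helper467, with parts by helpers 548, 627, 591, 168, 734, 684, 944, 215, 582 and others;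
see `departures/helper467.md`.
-/

set_option autoImplicit false
set_option linter.all false

namespace Pool.Agent.Results.MP_48b749_nt.SimultaneousTwists

open Polynomial Filter Pool.Agent.TH115.GD
open scoped Classical

/-- The data of the theorem: the polynomials `a i`, `b i` and the primes `P i`. -/
structure Family {k : Type} [Field k] {m : ℕ} (a b P : Fin m → k[X]) : Prop where
  /-- the curve `y ^ 2 = x ^ 3 + a i x + b i` has no points of order two over `k(t)` -/
  no_root : ∀ (i : Fin m) (c : k[X]), c ^ 3 + a i * c + b i ≠ 0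
  prime : ∀ i, Irreducible (P i)
  multiplicative : ∀ i, ¬ P i ∣ a i
  odd : ∀ i, ∃ n : ℕ, Odd n ∧ P i ^ n ∣ 4 * a i ^ 3 + 27 * b i ^ 2 ∧
    ¬ P i ^ (n + 1) ∣ 4 * a i ^ 3 + 27 * b i ^ 2
  other : ∀ i j, i ≠ j → ¬ P i ∣ 4 * a j ^ 3 + 27 * b j ^ 2

/-- The curve `y ^ 2 = x ^ 3 + a x + b` over `K = k(t)`. -/
noncomputable def curve {k : Type} [Field k] (K : Type) [Field K] [Algebra k[X] K] (a b : k[X]) :
    WeierstrassCurve K :=
  ⟨0, 0, 0, algebraMap k[X] K a, algebraMap k[X] K b⟩

/-- The group of the `K`-rational points is finite, of odd order, and the 2-primary part of the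
Tate-Shafarevich group is trivial. -/
def RankZero (k : Type) {K : Type} [Field k] [Field K] [Algebra k[X] K] [IsFractionRing k[X] K]
    (E : WeierstrassCurve K) : Prop :=
  Finite (Pt E K) ∧ Odd (Nat.card (Pt E K)) ∧ ShaTwo k E

/-- The monic squarefree polynomials `D` of degree `d` for which all the quadratic twists
`y ^ 2 = x ^ 3 + a i D ^ 2 x + b i D ^ 3` have these properties. -/
def Twists {k : Type} [Field k] (K : Type) [Field K] [Algebra k[X] K] [IsFractionRing k[X] K]
    {m : ℕ} (a b : Fin m → k[X]) (d : ℕ) : Set k[X] :=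
  {D | D.Monic ∧ Squarefree D ∧ D.natDegree = d ∧
    ∀ i, RankZero k (curve K (a i * D ^ 2) (b i * D ^ 3))}

/-! ### Comparison with the helper files -/

section aux

theorem irr {k : Type} [Field k] (K : Type) [Field K] [Algebra k[X] K] [IsFractionRing k[X] K]
    {a b : k[X]} (h : ∀ c : k[X], c ^ 3 + a * c + b ≠ 0) :
    Irreducible (X ^ 3 + C (algebraMap k[X] K a) * X + C (algebraMap k[X] K b) : K[X]) := by
  have hm : (X ^ 3 + C (algebraMap k[X] K a) * X + C (algebraMap k[X] K b) : K[X]).Monic := by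
    monicity!
  have hdeg : (X ^ 3 + C (algebraMap k[X] K a) * X + C (algebraMap k[X] K b) : K[X]).natDegree
      = 3 := by compute_degree!
  rw [hm.irreducible_iff_roots_eq_zero_of_degree_le_three (by rw [hdeg]; norm_num)
    (by rw [hdeg]), Multiset.eq_zero_iff_forall_notMem]
  intro x hx
  rw [mem_roots hm.ne_zero] at hx
  simp only [IsRoot.def, eval_add, eval_mul, eval_pow, eval_X, eval_C] at hx
  have hint : IsIntegral k[X] x := by
    refine ⟨X ^ 3 + C a * X + C b, by monicity!, ?_⟩
    simpa using hx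
  obtain ⟨c, rfl⟩ := IsIntegrallyClosed.isIntegral_iff.1 hint
  apply h c
  apply IsFractionRing.injective k[X] K
  rw [map_zero, ← hx, map_add, map_add, map_pow, map_mul]

theorem dat {k : Type} [Field k] (K : Type) [Field K] [Algebra k[X] K] [IsFractionRing k[X] K]
    {m : ℕ} {a b P : Fin m → k[X]} (h : Family a b P) : Pool.Agent.H467.MR.Dat K a b P where
  irr := fun i => irr K (h.no_root i)
  prm := h.prime
  mul := h.multiplicative
  odd := fun i => by
    obtain ⟨n, ⟨r, rfl⟩, ⟨c, hc⟩, hn⟩ := h.odd i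
    refine ⟨r, c, hc, fun hd => hn ?_⟩
    obtain ⟨e, rfl⟩ := hd
    exact ⟨e, by rw [hc]; ring⟩
  oth := h.other

theorem fin_deg {k : Type} [Field k] [Finite k] (d : ℕ) :
    {D : k[X] | D.natDegree ≤ d}.Finite := by
  refine Set.Finite.of_injOn (f := fun D : k[X] => fun i : Fin (d + 1) => D.coeff i)
    (t := Set.univ) (fun _ _ => Set.mem_univ _) ?_ Set.finite_univ
  intro D hD D' hD' hDD
  ext i
  by_cases hi : i ≤ d
  · exact congrFun hDD ⟨i, Nat.lt_succ_of_le hi⟩
  · have h1 : D.natDegree < i := lt_of_le_of_lt hD (not_le.1 hi)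
    have h2 : D'.natDegree < i := lt_of_le_of_lt hD' (not_le.1 hi)
    rw [coeff_eq_zero_of_natDegree_lt h1, coeff_eq_zero_of_natDegree_lt h2]

/-- A sum over the polynomials of degree at most `n` as a sum over the degrees. -/
theorem sum_deg {k : Type} [Field k] [Finite k] (S : Set k[X]) (n : ℕ) (w : ℕ → ℝ) :
    ∑ᶠ D ∈ {D : k[X] | D ∈ S ∧ D.natDegree ≤ n}, w D.natDegree =
      ∑ d ∈ Finset.range (n + 1), (({D : k[X] | D ∈ S ∧ D.natDegree = d}).ncard : ℝ) * w d := by
  have hf : {D : k[X] | D ∈ S ∧ D.natDegree ≤ n}.Finite := (fin_deg n).subset fun D hD => hD.2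
  rw [finsum_mem_eq_finite_toFinset_sum _ hf]
  rw [← Finset.sum_fiberwise_of_maps_to (s := hf.toFinset) (t := Finset.range (n + 1))
    (g := fun D : k[X] => D.natDegree) (fun D hD => by
      rw [Finset.mem_range]
      exact Nat.lt_succ_of_le (hf.mem_toFinset.1 hD).2)]
  refine Finset.sum_congr rfl fun d hd => ?_
  rw [Finset.mem_range] at hd
  have h1 : ∀ D ∈ hf.toFinset.filter (fun D : k[X] => D.natDegree = d), w D.natDegree = w d :=
    fun D hD => by rw [(Finset.mem_filter.1 hD).2]
  rw [Finset.sum_congr rfl h1, Finset.sum_const, nsmul_eq_mul]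
  congr 2
  rw [← Set.ncard_coe_finset]
  congr 1
  ext D
  simp only [Finset.coe_filter, Set.Finite.mem_toFinset, Set.mem_setOf_eq]
  constructor
  · rintro ⟨⟨h1, -⟩, h2⟩
    exact ⟨h1, h2⟩
  · rintro ⟨h1, h2⟩
    exact ⟨⟨h1, by omega⟩, h2⟩

/-- Sums of powers. -/
theorem sum_pow {δ : ℝ} (h0 : 0 < δ) (h1 : δ ≤ 1) (n : ℕ) :
    ∑ d ∈ Finset.range (n + 1), (d : ℝ) ^ (δ - 1) ≤ 1 + (n : ℝ) ^ δ / δ := by
  induction n with
  | zero =>
    rw [Finset.sum_range_one, Nat.cast_zero, Real.zero_rpow h0.ne', zero_div, add_zero]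
    rcases eq_or_lt_of_le h1 with h | h
    · rw [h, sub_self, Real.rpow_zero]
    · rw [Real.zero_rpow (by linarith)]
      norm_num
  | succ n ih =>
    rw [Finset.sum_range_succ]
    have hx : (0 : ℝ) < ((n + 1 : ℕ) : ℝ) := by positivity
    have key : δ * ((n + 1 : ℕ) : ℝ) ^ (δ - 1) ≤ ((n + 1 : ℕ) : ℝ) ^ δ - (n : ℝ) ^ δ := by
      have hb := rpow_one_add_le_one_add_mul_self (s := -(1 / ((n + 1 : ℕ) : ℝ))) (p := δ)
        (by
          have : 1 / ((n + 1 : ℕ) : ℝ) ≤ 1 := by
            rw [div_le_one hx]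
            push_cast
            have : (0 : ℝ) ≤ n := Nat.cast_nonneg n
            linarith
          linarith) h0.le h1
      have e1 : (n : ℝ) = ((n + 1 : ℕ) : ℝ) * (1 + -(1 / ((n + 1 : ℕ) : ℝ))) := by
        field_simp
        push_cast
        ring
      have hn0 : (0 : ℝ) ≤ 1 + -(1 / ((n + 1 : ℕ) : ℝ)) := by
        by_contra hneg
        have h3 : (n : ℝ) < 0 := by
          rw [e1]
          exact mul_neg_of_pos_of_neg hx (not_le.1 hneg)
        exact absurd (Nat.cast_nonneg (α := ℝ) n) (not_le.2 h3)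
      have e2 : (n : ℝ) ^ δ = ((n + 1 : ℕ) : ℝ) ^ δ * (1 + -(1 / ((n + 1 : ℕ) : ℝ))) ^ δ := by
        conv_lhs => rw [e1]
        rw [Real.mul_rpow hx.le hn0]
      have hp : (0 : ℝ) < ((n + 1 : ℕ) : ℝ) ^ δ := Real.rpow_pos_of_pos hx δ
      have e3 : ((n + 1 : ℕ) : ℝ) ^ (δ - 1) = ((n + 1 : ℕ) : ℝ) ^ δ * (1 / ((n + 1 : ℕ) : ℝ)) := by
        rw [Real.rpow_sub_one hx.ne', mul_one_div]
      rw [e2, e3]
      have := mul_le_mul_of_nonneg_left hb hp.le
      linarith
    have : ((n + 1 : ℕ) : ℝ) ^ (δ - 1) ≤ ((n + 1 : ℕ) : ℝ) ^ δ / δ - (n : ℝ) ^ δ / δ := by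
      rw [← sub_div, le_div_iff₀ h0]
      linarith
    linarith

/-- If a sum is large then infinitely many terms are large. -/
theorem freq {δ c : ℝ} (h0 : 0 < δ) (h1 : δ ≤ 1) (hc : 0 < c) (f : ℕ → ℝ)
    (h : ∀ᶠ n : ℕ in atTop, c * (n : ℝ) ^ δ ≤ ∑ d ∈ Finset.range (n + 1), f d) :
    ∃ᶠ d : ℕ in atTop, c * δ / 2 * (d : ℝ) ^ (δ - 1) ≤ f d := by
  rw [Filter.Frequently]
  intro hcon
  push Not at hcon
  obtain ⟨N, hN⟩ := eventually_atTop.1 (h.and hcon)
  have hb : ∀ n : ℕ, ∑ d ∈ Finset.range (n + 1), f d ≤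
      ∑ d ∈ Finset.range (N + 1), |f d| +
        c * δ / 2 * ∑ d ∈ Finset.range (n + 1), (d : ℝ) ^ (δ - 1) := by
    intro n
    have h2 : ∀ d ∈ Finset.range (n + 1), f d ≤ (if d ≤ N then |f d| else 0) +
        c * δ / 2 * (d : ℝ) ^ (δ - 1) := by
      intro d _
      have hnn : 0 ≤ c * δ / 2 * (d : ℝ) ^ (δ - 1) := by positivity
      by_cases hd : d ≤ N
      · rw [if_pos hd]
        linarith [le_abs_self (f d)]
      · rw [if_neg hd, zero_add]
        exact (hN d (by omega)).2.le
    refine (Finset.sum_le_sum h2).trans ?_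
    rw [Finset.sum_add_distrib, ← Finset.mul_sum, ← Finset.sum_filter]
    refine add_le_add ?_ le_rfl
    refine Finset.sum_le_sum_of_subset_of_nonneg ?_ fun d _ _ => abs_nonneg _
    intro d hd
    rw [Finset.mem_filter] at hd
    rw [Finset.mem_range]
    omega
  set A := ∑ d ∈ Finset.range (N + 1), |f d| with hA
  have hA0 : 0 ≤ A := Finset.sum_nonneg fun d _ => abs_nonneg _
  have hlim : Tendsto (fun n : ℕ => (n : ℝ) ^ δ) atTop atTop :=
    (tendsto_rpow_atTop h0).comp tendsto_natCast_atTop_atTop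
  obtain ⟨n, hn1, hn2⟩ := ((hlim.eventually_gt_atTop (2 * (A + c * δ / 2) / c)).and
    (eventually_ge_atTop N)).exists
  have h3 := (hN n hn2).1
  have h4 := hb n
  have h5 := sum_pow h0 h1 n
  have h6 : c * δ / 2 * ∑ d ∈ Finset.range (n + 1), (d : ℝ) ^ (δ - 1) ≤
      c * δ / 2 * (1 + (n : ℝ) ^ δ / δ) := mul_le_mul_of_nonneg_left h5 (by positivity)
  have h7 : c * δ / 2 * (1 + (n : ℝ) ^ δ / δ) = c * δ / 2 + c / 2 * (n : ℝ) ^ δ := by
    field_simp
  rw [div_lt_iff₀ hc] at hn1
  nlinarith

end aux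

/-- For every finite field `k` of characteristic at least five and all curves as above there is a
positive constant `c` such that the sum of `N_d / q ^ d` for `d ≤ n` is at least `c n ^ (3 ^ (- m))` for
all large `n`, where `N_d` is the number of the monic squarefree polynomials `D` of degree `d` such that
all the twists by `D` have a finite group of rational points, of odd order, and trivial 2-primary part
of the Tate-Shafarevich group; and `N_d ≥ c q ^ d d ^ (3 ^ (- m) - 1)` for infinitely many `d`. -/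
theorem result (k : Type) [Field k] [Finite k] (h6 : (6 : k) ≠ 0) (K : Type) [Field K]
    [Algebra k[X] K] [IsFractionRing k[X] K] (m : ℕ) (a b P : Fin m → k[X])
    (h : Family a b P) :
    (∀ d, (Twists K a b d).Finite) ∧
    ∃ c : ℝ, 0 < c ∧
      (∀ᶠ n : ℕ in atTop, c * (n : ℝ) ^ (((1 : ℝ) / 3) ^ m) ≤
        ∑ d ∈ Finset.range (n + 1), ((Twists K a b d).ncard : ℝ) / (Nat.card k : ℝ) ^ d) ∧
      (∃ᶠ d : ℕ in atTop, c * (Nat.card k : ℝ) ^ d * (d : ℝ) ^ (((1 : ℝ) / 3) ^ m - 1) ≤
        ((Twists K a b d).ncard : ℝ)) := by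
  have hfin : ∀ d, (Twists K a b d).Finite := fun d =>
    (fin_deg d).subset fun D hD => hD.2.2.1.le
  refine ⟨hfin, ?_⟩
  obtain ⟨c, hc, n₀, hcnt⟩ := Pool.Agent.H467.MR.sim K h6 (dat K h)
  have hδ0 : (0 : ℝ) < ((1 : ℝ) / 3) ^ m := by positivity
  have hδ1 : ((1 : ℝ) / 3) ^ m ≤ 1 := pow_le_one₀ (by norm_num) (by norm_num)
  have hq : (0 : ℝ) < Nat.card k := by exact_mod_cast Nat.card_pos
  have h1 : ∀ᶠ n : ℕ in atTop, c * (n : ℝ) ^ (((1 : ℝ) / 3) ^ m) ≤
      ∑ d ∈ Finset.range (n + 1), ((Twists K a b d).ncard : ℝ) / (Nat.card k : ℝ) ^ d := by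
    filter_upwards [eventually_ge_atTop n₀] with n hn
    refine (hcnt n hn).2.trans (le_of_eq ?_)
    have e := sum_deg (k := k) {D : k[X] | D.Monic ∧ Squarefree D ∧
      ∀ i, RankZero k (curve K (a i * D ^ 2) (b i * D ^ 3))} n (fun d => ((Nat.card k : ℝ) ^ d)⁻¹)
    have e1 : {D : k[X] | D.Monic ∧ D.natDegree ≤ n ∧ (Squarefree D ∧
        ∀ i, Pool.Agent.H467.MR.GoodTw K (a i) (b i) D)} =
        {D : k[X] | D ∈ {D : k[X] | D.Monic ∧ Squarefree D ∧
      ∀ i, RankZero k (curve K (a i * D ^ 2) (b i * D ^ 3))} ∧ D.natDegree ≤ n} := by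
      ext D
      constructor
      · rintro ⟨h1, h2, h3, h4⟩
        exact ⟨⟨h1, h3, h4⟩, h2⟩
      · rintro ⟨⟨h1, h3, h4⟩, h2⟩
        exact ⟨h1, h2, h3, h4⟩
    rw [e1, e]
    refine Finset.sum_congr rfl fun d _ => ?_
    rw [div_eq_mul_inv]
    congr 3
    ext D
    constructor
    · rintro ⟨⟨h1, h3, h4⟩, h2⟩
      exact ⟨h1, h3, h2, h4⟩
    · rintro ⟨h1, h3, h2, h4⟩
      exact ⟨⟨h1, h3, h4⟩, h2⟩
  refine ⟨c * ((1 : ℝ) / 3) ^ m / 2, by positivity, ?_, ?_⟩
  · filter_upwards [h1] with n hn
    refine le_trans ?_ hn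
    have h2 : c * ((1 : ℝ) / 3) ^ m / 2 ≤ c := by
      have : c * ((1 : ℝ) / 3) ^ m ≤ c * 1 := mul_le_mul_of_nonneg_left hδ1 hc.le
      linarith
    exact mul_le_mul_of_nonneg_right h2 (Real.rpow_nonneg (Nat.cast_nonneg n) _)
  · refine (freq hδ0 hδ1 hc _ h1).mono fun d hd => ?_
    rw [le_div_iff₀ (by positivity)] at hd
    linarith

end Pool.Agent.Results.MP_48b749_nt.SimultaneousTwists
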