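import Pool.Agent.H859.AL.Use
import Pool.Agent.H859.TWC.Cnt2

/-!
# The conjecture of Birch and Swinnerton-Dyer for a small quadratic twist of almost all elliptic curves
# over `k(t)`, over a given tower of quadratic extensions and infinitely many others at once

Let `k` be any finite field of odd characteristic (also three), `q` the number of its elements, `K = k(t)`
and `M₀` a finite Galois extension of `K` of degree `2 ^ n`, with any constants, for example `M₀ = K`. Let
`F_N` be the set of the elliptic curves `y ^ 2 = f(x) = x ^ 3 + a x ^ 2 + b x + c` with `a, b, c` in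
`k[t]` of degrees at most `2 N, 4 N, 6 N` for which

* the reduction at infinity is good and irreducible: the cubic polynomial over `k` with the coefficients of
  `t ^ (2 N), t ^ (4 N), t ^ (6 N)` in `a, b, c` is irreducible;
* the discriminant of `f` is squarefree (so the curve is not isotrivial: its bad fibres are irreducible
  nodal cubics, and `j` has simple poles there);
* `f` is congruent to `f₁` modulo `m ^ 2`. Here `m ≠ 0` and `f₁` are given, the discriminant of `f₁` is not
  divisible by the square of a prime divisor of `m`, all the primes of `k[t]` which are ramified in `M₀`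
  divide `m`, and `f₁` is irreducible modulo these.

This is a family of positive density among all the equations of the given height. For a finite set `T` of
primes of `k[t]` and `f` let `C(f, T)` be the class of the finite Galois extensions `M` of `K` of 2-power
degree in which all `Q ∈ T` split completely and in which only such primes of `k[t]` are ramified modulo
which `f` is irreducible (there is no condition at infinity).

Theorem. There is a constant `C` (depending on `k`, `m`, `f₁`) such that for EVERY finite set `T` of
primes `Q` of `k[t]` which split completely in `M₀` (there are infinitely many), `q ^ (deg Q) ≥ 7`, the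
following holds. The field `M₀` belongs to `C(f, T)` for all `f ∈ F_N`, and for all large `N`, for all but
at most `C (31 / 32) ^ |T|` times the number of all the `f ∈ F_N`, there is a divisor `D` of the product of
the primes in `T` such that the quadratic twist `E_D : y ^ 2 = D ^ 3 f(x / D)` has the following property
for ALL the fields `L` between `K` and a field `M ∈ C(f, T)`: multiplication by two is bijective on
`E_D(L)`, and all classes of 2-power order in the Tate-Shafarevich group of `E_D` over `L` are zero, even
without conditions at the places over infinity.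

So for every `ε > 0` there is ONE polynomial `P`, the product of finitely many primes which split completely
in `M₀`, such that for large `N` all but `ε |F_N|` of the `f ∈ F_N` have a quadratic twist by a divisor of
`P` which satisfies the conjecture over `M₀` and over all the fields `L`: `E_D(L)` is finite of odd order,
the 2-primary part of its Tate-Shafarevich group is zero, and by the theorem of Artin, Tate and Milne (in
the list of the known results of the problem: (b) implies (a)) Q1 holds for `E_D` over all `L`; the
`L`-function of `E_D` over `L` does not vanish at `1 / q_L`. Over `K` and the quadratic extensions of `K`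
in the class this says that `E_D` and infinitely many of its quadratic twists have rank zero.

Here `E(L)` is given as the Picard group of the affine coordinate ring `L[x, y] / (y ^ 2 - f)`, and the
Tate-Shafarevich group is defined by continuous cocycles on the absolute Galois group with values in the
points over the separable closure.

What was known. For one given curve one knows infinitely many quadratic twists of rank zero (moments of
`L`-functions; Selmer groups: Mazur, Rubin), where the twist depends on the curve and its degree grows with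
the conductor. The library and this run have a positive proportion (an unspecified constant) of all curves
without a twist. Here the family is fixed, the twisting polynomial divides one fixed `P`, and the
exceptional set decreases exponentially with the number of the primes in `T`.

Proof. See `MP_60d5ce_nt.SmallTwistOfAlmostAll`, the theorem for the Jacobians of all genera over the class
`C(f, T)` without a given field `M₀`: self-adjoint operators on self-dual lattices of rank three over the
line which for ALL `Q ∈ T` avoid the non-distinguished operators over the residue field whose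
characteristic polynomial has exactly one root; these are at least the share `1 / 32` of all the
self-adjoint operators.

Helper files: `Pool/Agent/H859/AL/` (helper859, new); `Pool/Agent/H859/TWC/`, `Pool/Agent/H859/SC/`
(helper859), mostly after the files of the projects PJ (helper352), JM, TW (helper874) with parts by many
helpers of the run 63374d34; classification of quadratic forms: helper747; Gram matrices: helper644.
-/

set_option autoImplicit false
set_option linter.all false

namespace Pool.Agent.Results.MP_48b749_nt.SmallTwistOfAlmostAllCurves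

open Polynomial Filter IsDedekindDomain
open Pool.Agent.N874.Jac (UniquelyTwoDivisible ShaTwoTrivial)
open scoped Classical

/-- The equations `y ^ 2 = f(x) = x ^ 3 + a x ^ 2 + b x + c` with `a, b, c` of degrees at most
`2 N, 4 N, 6 N`. -/
def Equations (k : Type) [Field k] (N : ℕ) : Set k[X][X] :=
  {f | f.Monic ∧ f.natDegree = 3 ∧ ∀ j ≤ 2, (f.coeff j).natDegree ≤ 2 * N * (3 - j)}

/-- The reduction at infinity of `f`. -/
noncomputable def atInfinity {k : Type} [Field k] (N : ℕ) (f : k[X][X]) : k[X] :=
  X ^ 3 + ∑ j ∈ Finset.range 3, C ((f.coeff j).coeff (2 * N * (3 - j))) * X ^ j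

/-- The family `F_N`: irreducible at infinity, with squarefree discriminant, congruent to `f₁` modulo
`m ^ 2`. -/
def Family {k : Type} [Field k] (m : k[X]) (f₁ : k[X][X]) (N : ℕ) : Set k[X][X] :=
  {f ∈ Equations k N | Irreducible (atInfinity N f) ∧ Squarefree f.discr ∧
    ∀ j, m ^ 2 ∣ f.coeff j - f₁.coeff j}

/-- Multiplication by two is bijective on `J(E)`, `J` the elliptic curve `y ^ 2 = F(x)`, and every class
of 2-power order in `H ^ 1 (E, J)` which is zero over the completions of `E` at all maximal ideals of `R` is
zero. -/
def NoTwoPart (R : Type) {E : Type} [Field E] [CommRing R] [IsDedekindDomain R] [Algebra R E]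
    [IsFractionRing R E] (F : E[X]) : Prop :=
  UniquelyTwoDivisible F ∧ ShaTwoTrivial F R

/-- `f` is irreducible modulo `P`. -/
def IrreducibleMod {k : Type} [Field k] (f : k[X][X]) (P : k[X]) : Prop :=
  Irreducible (f.map (Ideal.Quotient.mk (Ideal.span {P})))

/-- `P` is unramified in the extension `R` of `k[t]`. -/
def Unramified {k : Type} [Field k] (R : Type) [CommRing R] [Algebra k[X] R] (P : k[X]) : Prop :=
  ∀ w : HeightOneSpectrum R, algebraMap k[X] R P ∈ w.asIdeal → algebraMap k[X] R P ∉ w.asIdeal ^ 2

/-- `Q` splits completely in the extension `R` of `k[t]`: it is unramified, and every element of `R` is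
congruent to a polynomial modulo every prime over `Q`. -/
def SplitsCompletely {k : Type} [Field k] (R : Type) [CommRing R] [Algebra k[X] R] (Q : k[X]) :
    Prop :=
  Unramified R Q ∧ ∀ w : HeightOneSpectrum R, algebraMap k[X] R Q ∈ w.asIdeal →
    ∀ y : R, ∃ c : k[X], y - algebraMap k[X] R c ∈ w.asIdeal

/-- The (finite Galois) extension `M` of `K`, in which `R` is the integral closure of `k[t]`, belongs to
the class `C(f, T)`: it has 2-power degree, all `Q ∈ T` split completely in it, and only such primes are
ramified in it modulo which `f` is irreducible. -/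
structure InClass {k : Type} [Field k] (K : Type) [Field K] (T : Finset k[X]) (f : k[X][X])
    (M : Type) [Field M] [Algebra K M] (R : Type) [CommRing R] [Algebra k[X] R] : Prop where
  degree : ∃ n : ℕ, Module.finrank K M = 2 ^ n
  splits : ∀ Q ∈ T, SplitsCompletely R Q
  ramified : ∀ P : k[X], Irreducible P → Unramified R P ∨ IrreducibleMod f P

/-- The curve `y ^ 2 = F(x)` has no 2-part over all the fields `E` between `K = k(t)` and a field `M` of
the class `C(f, T)`. Here `R` is the integral closure of `k[t]` in `M`, and `R'` that in `E`. -/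
def NoTwoPartUniformly {k : Type} [Field k] (K : Type) [Field K] [Algebra k[X] K]
    (T : Finset k[X]) (f F : k[X][X]) : Prop :=
  ∀ (M : Type) [Field M] [Algebra K M] [Algebra k[X] M] [IsScalarTower k[X] K M]
    [FiniteDimensional K M] [IsGalois K M] (R : Type) [CommRing R] [IsDedekindDomain R]
    [Algebra R M] [IsFractionRing R M] [Algebra k[X] R] [IsScalarTower k[X] R M]
    [IsIntegralClosure R k[X] M], InClass K T f M R →
    ∀ (E : IntermediateField K M) (R' : Type) [CommRing R'] [IsDedekindDomain R'] [Algebra R' E]
      [IsFractionRing R' E] [Algebra k[X] R'] [IsScalarTower k[X] R' E]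
      [IsIntegralClosure R' k[X] E], NoTwoPart R' (F.map (algebraMap k[X] E))

/-- For some divisor `D` of the product of `T` the quadratic twist `y ^ 2 = D ^ 3 f(x / D)` by `D` of the
elliptic curve `y ^ 2 = f(x)` has no 2-part over all the fields between `K` and a field of the class
`C(f, T)`. -/
def HasGoodTwist {k : Type} [Field k] (K : Type) [Field K] [Algebra k[X] K]
    (T : Finset k[X]) (f : k[X][X]) : Prop :=
  ∃ D : k[X], D ∣ ∏ Q ∈ T, Q ∧ NoTwoPartUniformly K T f (f.scaleRoots D)

/-- Let `k` be a finite field of odd characteristic, `K = k(t)`, `M₀` a finite Galois extension of `K` of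
degree `2 ^ n`, `m ≠ 0` and `f₁` monic of degree three over `k[t]` such that the discriminant of `f₁` is not
divisible by the square of a prime divisor of `m`, the primes which are ramified in `M₀` divide `m`, and
`f₁` is irreducible modulo these. The family `F_N` has positive density in the set of all equations of the
same height. Infinitely many primes of `k[t]` split completely in `M₀`. There is a constant `C` such that
for every finite set `T` of such primes with residue fields of at least seven elements: `M₀` belongs to the
class `C(f, T)` for all `f ∈ F_N`; and for all large `N` at most `C (31 / 32) ^ |T| |F_N|` members `f` of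
`F_N` do NOT have the following property: there is a divisor `D` of the product of the primes in `T` such
that for the quadratic twist `E_D : y ^ 2 = D ^ 3 f(x / D)` and for ALL the fields `L` between `K` and a
finite Galois extension of `K` of 2-power degree in which all `Q ∈ T` split completely and in which only
primes are ramified modulo which `f` is irreducible, multiplication by two is bijective on `E_D(L)` and the
2-primary part of the Tate-Shafarevich group of `E_D` over `L` is zero. -/
theorem result (k : Type) [Field k] [Finite k] (hp : (2 : k) ≠ 0)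
    (K : Type) [Field K] [Algebra k[X] K] [IsFractionRing k[X] K]
    (M₀ : Type) [Field M₀] [Algebra K M₀] [Algebra k[X] M₀] [IsScalarTower k[X] K M₀]
    [FiniteDimensional K M₀] [IsGalois K M₀]
    (R₀ : Type) [CommRing R₀] [IsDedekindDomain R₀] [Algebra R₀ M₀] [IsFractionRing R₀ M₀]
    [Algebra k[X] R₀] [IsScalarTower k[X] R₀ M₀] [IsIntegralClosure R₀ k[X] M₀]
    (n : ℕ) (hn : Module.finrank K M₀ = 2 ^ n) (m : k[X]) (hm : m ≠ 0)
    (f₁ : k[X][X]) (hf₁ : f₁.Monic) (hd₁ : f₁.natDegree = 3)
    (hdisc : ∀ P : k[X], Irreducible P → P ∣ m → ¬ P ^ 2 ∣ f₁.discr)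
    (hram : ∀ P : k[X], Irreducible P → Unramified R₀ P ∨ (P ∣ m ∧ IrreducibleMod f₁ P)) :
    (∀ N : ℕ, (Equations k N).Finite) ∧
    (∃ c : ℝ, 0 < c ∧ ∀ᶠ N : ℕ in atTop, 0 < (Family m f₁ N).ncard ∧
      c * ((Equations k N).ncard : ℝ) ≤ ((Family m f₁ N).ncard : ℝ)) ∧
    {Q : k[X] | Q.Monic ∧ Irreducible Q ∧ SplitsCompletely R₀ Q}.Infinite ∧
    ∃ C : ℝ, ∀ T : Finset k[X],
      (∀ Q ∈ T, Q.Monic ∧ Irreducible Q ∧ SplitsCompletely R₀ Q ∧
        7 ≤ Nat.card k ^ Q.natDegree) →
      (∀ N : ℕ, ∀ f ∈ Family m f₁ N, InClass K T f M₀ R₀) ∧
      ∀ᶠ N : ℕ in atTop, ({f ∈ Family m f₁ N | ¬ HasGoodTwist K T f}.ncard : ℝ) ≤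
        C * (31 / 32) ^ T.card * ((Family m f₁ N).ncard : ℝ) := by
  have hall : ∀ N, Equations k N = {f : k[X][X] | Pool.Agent.H859.PJ.HtA 1 (2 * N) f} := by
    intro N
    ext f
    exact ⟨fun h => ⟨h.1, h.2.1, h.2.2⟩, fun h => ⟨h.mon, h.deg, h.ht⟩⟩
  have hfam : ∀ N, Family m f₁ N = Pool.Agent.H859.AL.Fam 1 N (m ^ 2) f₁ := by
    intro N
    ext f
    constructor
    · rintro ⟨h1, h2, h3, h4⟩
      exact ⟨⟨h1.1, h1.2.1, h1.2.2⟩, (Pool.Agent.H859.AL.irrInf_iff (g := 1) N f).2 h2,
        (Pool.Agent.H859.AL.sq_discr (g := 1) h1.1 h1.2.1).2 h3, h4⟩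
    · rintro ⟨h1, h2, h3, h4⟩
      exact ⟨⟨h1.mon, h1.deg, h1.ht⟩, (Pool.Agent.H859.AL.irrInf_iff (g := 1) N f).1 h2,
        (Pool.Agent.H859.AL.sq_discr (g := 1) h1.mon h1.deg).1 h3, h4⟩
  have hGM := Pool.Agent.H859.TWC.goodM_sq (g := 1) hm hf₁ hd₁ hdisc
  have hfin : ∀ N, (Equations k N).Finite := fun N => by
    rw [hall]
    exact (Pool.Agent.H859.N415.PJMAIN.ht_card (k := k) 1 (2 * N)).1
  have hq : (0 : ℝ) < Nat.card k := by exact_mod_cast Nat.card_pos
  refine ⟨hfin, ?_, ?_, ?_⟩
  · obtain ⟨c, hc, N₀, hN₀⟩ := Pool.Agent.H859.AL.fam_pos (g := 1) le_rfl hp hGM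
    refine ⟨c / (Nat.card k : ℝ) ^ 3, by positivity, ?_⟩
    filter_upwards [eventually_ge_atTop N₀] with N hN
    obtain ⟨hF, hle⟩ := hN₀ N hN
    rw [hfam]
    have h1 : (0 : ℝ) < ((Pool.Agent.H859.AL.Fam 1 N (m ^ 2) f₁).ncard : ℝ) :=
      lt_of_lt_of_le (by positivity) hle
    refine ⟨by exact_mod_cast h1, ?_⟩
    have h2 : ((Equations k N).ncard : ℝ) ≤
        (Nat.card k : ℝ) ^ (2 * N * Pool.Agent.H859.PJ.ddA 1) * (Nat.card k : ℝ) ^ 3 := by
      rw [hall, ← pow_add]
      exact_mod_cast (Pool.Agent.H859.N415.PJMAIN.ht_card (k := k) 1 (2 * N)).2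
    calc c / (Nat.card k : ℝ) ^ 3 * ((Equations k N).ncard : ℝ)
        ≤ c / (Nat.card k : ℝ) ^ 3 *
          ((Nat.card k : ℝ) ^ (2 * N * Pool.Agent.H859.PJ.ddA 1) *
            (Nat.card k : ℝ) ^ 3) := by gcongr
      _ = c * (Nat.card k : ℝ) ^ (2 * N * Pool.Agent.H859.PJ.ddA 1) := by field_simp
      _ ≤ _ := hle
  · intro hfin
    obtain ⟨S, hS, hcard, hS1⟩ := Pool.Agent.H859.TWC.exists_one_split (K := K) M₀ R₀ (1 : k[X])
      one_ne_zero (hfin.toFinset.card + 1)
    have hsub : S ⊆ hfin.toFinset := by
      intro Q hQ
      rw [Set.Finite.mem_toFinset]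
      exact ⟨(hS Q hQ).1, (hS Q hQ).2, fun w hw => ((hS1 Q hQ).2.2 w hw).1,
        fun w hw => ((hS1 Q hQ).2.2 w hw).2⟩
    have := Finset.card_le_card hsub
    omega
  · obtain ⟨C, -, hC⟩ := Pool.Agent.H859.AL.final_almost (g := 1) le_rfl hp K hGM
    refine ⟨C, fun T hT => ⟨?_, ?_⟩⟩
    · intro N f hf
      refine ⟨⟨n, hn⟩, fun Q hQ => (hT Q hQ).2.2.1, fun P hP => ?_⟩
      rcases hram P hP with h | ⟨h, h'⟩
      · exact Or.inl h
      · right
        have hc : Pool.Agent.N352.PJ.Cg P f f₁ := fun j =>
          (h.trans (dvd_pow_self m two_ne_zero)).trans (hf.2.2.2 j)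
        show Irreducible (f.map (Ideal.Quotient.mk (Ideal.span {P})))
        rw [Pool.Agent.H859.TWC.cg_map hc]
        exact h'
    · obtain ⟨N₀, hN₀⟩ := hC T fun Q hQ => ⟨(hT Q hQ).1, (hT Q hQ).2.1, (hT Q hQ).2.2.2⟩
      filter_upwards [eventually_ge_atTop N₀] with N hN
      have h1 := hN₀ N hN
      rw [hfam]
      have e : (1 : ℝ) - 1 / (32 * ((1 : ℕ) : ℝ)) = 31 / 32 := by norm_num
      rw [e] at h1
      refine le_trans ?_ h1
      have hfin' : {f ∈ Pool.Agent.H859.AL.Fam 1 N (m ^ 2) f₁ |
          ¬ Pool.Agent.H859.AL.GoodTw K T f}.Finite :=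
        (hfin N).subset fun f hf => by
          have : f ∈ Family m f₁ N := by rw [hfam]; exact hf.1
          exact this.1
      have hsub : {f ∈ Pool.Agent.H859.AL.Fam 1 N (m ^ 2) f₁ | ¬ HasGoodTwist K T f} ⊆
          {f ∈ Pool.Agent.H859.AL.Fam 1 N (m ^ 2) f₁ | ¬ Pool.Agent.H859.AL.GoodTw K T f} := by
        rintro f ⟨hf, hno⟩
        refine ⟨hf, fun hgt => hno ?_⟩
        obtain ⟨D, hD, h⟩ := Pool.Agent.H859.AL.good_use hp K
          (fun Q hQ => ⟨(hT Q hQ).1, (hT Q hQ).2.1⟩) hf.1 hf.2.1 hf.2.2.1 hgt
        refine ⟨D, hD, ?_⟩
        intro M _ _ _ _ _ _ R _ _ _ _ _ _ _ hM E R' _ _ _ _ _ _ _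
        obtain ⟨n, hn⟩ := hM.degree
        exact h M R n hn (fun Q hQ w hw => ⟨(hM.splits Q hQ).1 w hw, (hM.splits Q hQ).2 w hw⟩)
          hM.ramified E R'
      exact_mod_cast Set.ncard_le_ncard hsub hfin'

end Pool.Agent.Results.MP_48b749_nt.SmallTwistOfAlmostAllCurves
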