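import Pool.Agent.H456.PS.All6

/-!
# The Birch and Swinnerton-Dyer conjecture for the simultaneous quadratic twists of 100 % of the tuples of elliptic curves

`Eqn F d` (equations with `deg aᵢ ≤ i d`) and `cls` (isomorphism class over `F(t)`) are in `Pool.Agent.H456.RN.Defs`, and
`Set.univ.pi (fun _ : Fin r => cls '' Eqn F d)` is the set of the `r`-tuples of isomorphism classes of elliptic curves of
height at most `q ^ d`; `SelInf` (the `2^∞`-Selmer group), `SelInfTwo` (its elements killed by `2`), `ShaTwoTrivial` (the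
2-primary part of the Tate-Shafarevich group is trivial), `twistP` (quadratic twist), `law`, `sqf` (the squarefree
polynomials of given degree) and `share` (proportion) are in `Pool.Agent.H456.Pub.Law`, `Pool.Agent.H456.Pub.Law2`,
`Pool.Agent.H456.Pub.Sha` and `Pool.Agent.H456.Pub.Def`.
-/

open Polynomial Filter Pool.Agent.H456.EC
open Pool.Agent.H456.Pub (twistP SelInf SelInfTwo ShaTwoTrivial law sqf share)

namespace Pool.Agent.Results.MP_48b749_nt.TwistsOfTuples

/-- Let `F` be a finite field of odd characteristic, `K = F(t)`, `r ≥ 0` and `ε > 0`. There is `k₀` such that for every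
`k ≥ k₀` and all sufficiently large `d` all but at most the proportion `ε` of the `r`-tuples `(E₁, …, Eᵣ)` of elliptic
curves over `K` of height at most `q ^ d` have the following properties. For all `j₁, …, jᵣ` the proportion of the
squarefree polynomials `D` of degree `2 k` for which the `2^∞`-Selmer group of the quadratic twist `Eᵢ^D` has exactly
`2 ^ jᵢ` elements killed by `2`, for all `i` simultaneously, differs by at most `ε` from the product of the probabilities
`law jᵢ` of Poonen and Rains. The proportion of those for which all `Eᵢ^D(K)` are finite, the `2^∞`-Selmer groups of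
all `Eᵢ^D` are trivial and the 2-primary parts of the Tate-Shafarevich groups of all `Eᵢ^D` are trivial differs by at most
`ε` from `(∏_{j ≥ 0} (1 + 2⁻ʲ)⁻¹) ^ r = 0.2097... ^ r`. -/
theorem result (F : Type) [Field F] [Fintype F] (h2 : (2 : F) ≠ 0) (r : ℕ) (ε : ℝ) (hε : 0 < ε) :
    0.2097 < law 0 ∧ ∃ k₀ : ℕ, ∀ k ≥ k₀, (sqf F (2 * k)).Finite ∧ (sqf F (2 * k)).Nonempty ∧
      ∀ᶠ d : ℕ in atTop, ∃ B ⊆ Set.univ.pi (fun _ : Fin r => cls '' Eqn F d),
        (B.ncard : ℝ) ≤ ε * ((cls '' Eqn F d).ncard : ℝ) ^ r ∧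
        ∀ κ ∈ Set.univ.pi (fun _ : Fin r => cls '' Eqn F d), κ ∉ B →
          (∀ j : Fin r → ℕ, |share (sqf F (2 * k)) (fun D => ∀ i, Nat.card (SelInfTwo (twistP (κ i).out D)) = 2 ^ j i) -
            ∏ i, law (j i)| ≤ ε) ∧
          |share (sqf F (2 * k)) (fun D => ∀ i, Finite (twistP (κ i).out D).toAffine.Point ∧
            Nat.card (SelInf (twistP (κ i).out D)) = 1 ∧ ShaTwoTrivial (twistP (κ i).out D)) - law 0 ^ r| ≤ ε :=
  ⟨Pool.Agent.H456.PS.law_zero, Pool.Agent.H456.PS.joint_sha h2 r ε hε⟩

end Pool.Agent.Results.MP_48b749_nt.TwistsOfTuples
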